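import Mathlib

/-!
# Groups whose order is a proper divisor of 60 are solvable
-/

set_option autoImplicit false

namespace Pool.Agent.V1134.SmallSolvable

theorem solvable_of_normal {G : Type*} [Group G] (N : Subgroup G) [N.Normal]
    (h1 : Group.IsSolvable N) (h2 : Group.IsSolvable (G ⧸ N)) : Group.IsSolvable G := by
  refine Group.isSolvable_of_ker_le_range N.subtype (QuotientGroup.mk' N) ?_
  rw [QuotientGroup.ker_mk', Subgroup.range_subtype]

theorem solvable_squarefree {G : Type*} [Group G] [Finite G] (h : Squarefree (Nat.card G)) :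
    Group.IsSolvable G := by
  have := IsZGroup.of_squarefree h
  infer_instance

theorem solvable_pgroup {G : Type*} [Group G] [Finite G] (p : ℕ) [hp : Fact p.Prime]
    (h : IsPGroup p G) : Group.IsSolvable G := by
  have := h.isNilpotent
  infer_instance

theorem solvable_four {G : Type*} [Group G] [Finite G] (h : Nat.card G = 4) :
    Group.IsSolvable G := by
  have : Fact (Nat.Prime 2) := ⟨Nat.prime_two⟩
  exact solvable_pgroup 2 (IsPGroup.of_card (n := 2) (by rw [h]; norm_num))

theorem solvable_twelve {G : Type*} [Group G] [Finite G] (h : Nat.card G = 12) :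
    Group.IsSolvable G := by
  have : Fact (Nat.Prime 2) := ⟨Nat.prime_two⟩
  obtain ⟨T⟩ := (inferInstance : Nonempty (Sylow 2 G))
  have hT : Nat.card T = 4 := by
    rw [T.card_eq_multiplicity, h]
    have : (12 : ℕ).factorization 2 = 2 := by
      rw [show (12 : ℕ) = 2 * (2 * 3) by norm_num, Nat.factorization_mul (by norm_num) (by norm_num),
        Nat.factorization_mul (by norm_num) (by norm_num)]
      simp [Nat.Prime.factorization Nat.prime_two, Nat.Prime.factorization Nat.prime_three]
    rw [this]
    norm_num
  have hidx : (T : Subgroup G).index = 3 := by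
    have h1 := Subgroup.card_mul_index (T : Subgroup G)
    rw [h] at h1
    have h2 : Nat.card (T : Subgroup G) = 4 := hT
    rw [h2] at h1
    omega
  have hcard3 : Nat.card (G ⧸ (T : Subgroup G)) = 3 := hidx
  have hperm : Group.IsSolvable (Equiv.Perm (G ⧸ (T : Subgroup G))) := by
    apply solvable_squarefree
    rw [Nat.card_perm, hcard3, show Nat.factorial 3 = 6 from rfl]
    decide +kernel
  refine solvable_of_normal (T : Subgroup G).normalCore ?_ ?_
  · have h1 : IsPGroup 2 (T : Subgroup G).normalCore :=
      T.isPGroup'.to_le (Subgroup.normalCore_le _)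
    exact solvable_pgroup 2 h1
  · have hk : (T : Subgroup G).normalCore = (MulAction.toPermHom G (G ⧸ (T : Subgroup G))).ker :=
      Subgroup.normalCore_eq_ker _
    have h2 := QuotientGroup.kerLift_injective (MulAction.toPermHom G (G ⧸ (T : Subgroup G)))
    have h3 : Group.IsSolvable (G ⧸ (MulAction.toPermHom G (G ⧸ (T : Subgroup G))).ker) :=
      Group.isSolvable_of_isSolvable_injective h2
    have h4 : G ⧸ (T : Subgroup G).normalCore ≃*
        G ⧸ (MulAction.toPermHom G (G ⧸ (T : Subgroup G))).ker :=
      QuotientGroup.quotientMulEquivOfEq hk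
    exact Group.isSolvable_of_isSolvable_injective (f := h4.toMonoidHom) h4.injective

theorem solvable_twenty {G : Type*} [Group G] [Finite G] (h : Nat.card G = 20) :
    Group.IsSolvable G := by
  have : Fact (Nat.Prime 5) := ⟨Nat.prime_five⟩
  obtain ⟨T⟩ := (inferInstance : Nonempty (Sylow 5 G))
  have hT : Nat.card T = 5 := by
    rw [T.card_eq_multiplicity, h]
    have : (20 : ℕ).factorization 5 = 1 := by
      rw [show (20 : ℕ) = 2 * (2 * 5) by norm_num, Nat.factorization_mul (by norm_num) (by norm_num),
        Nat.factorization_mul (by norm_num) (by norm_num)]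
      simp [Nat.Prime.factorization Nat.prime_two, Nat.Prime.factorization Nat.prime_five]
    rw [this]
    norm_num
  have hidx : (T : Subgroup G).index = 4 := by
    have h1 := Subgroup.card_mul_index (T : Subgroup G)
    rw [h] at h1
    have h2 : Nat.card (T : Subgroup G) = 5 := hT
    rw [h2] at h1
    omega
  have h1 : Nat.card (Sylow 5 G) = 1 := by
    have h2 := Sylow.card_dvd_index T
    rw [hidx] at h2
    have h3 := card_sylow_modEq_one 5 G
    have h4 : Nat.card (Sylow 5 G) ≤ 4 := Nat.le_of_dvd (by norm_num) h2
    have h5 : Nat.card (Sylow 5 G) % 5 = 1 % 5 := h3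
    omega
  have h2 : Subsingleton (Sylow 5 G) := (Nat.card_eq_one_iff_unique.1 h1).1
  have h3 : (T : Subgroup G).Normal := Sylow.normal_of_subsingleton T
  refine solvable_of_normal (T : Subgroup G) (solvable_pgroup 5 T.isPGroup') ?_
  apply solvable_four
  exact hidx

theorem solvable_of_dvd_sixty {G : Type*} [Group G] [Finite G] (h : Nat.card G ∣ 60)
    (h' : Nat.card G ≠ 60) : Group.IsSolvable G := by
  have h1 : Nat.card G ∈ Nat.divisors 60 := Nat.mem_divisors.2 ⟨h, by norm_num⟩
  have h2 : Nat.divisors 60 = {1, 2, 3, 4, 5, 6, 10, 12, 15, 20, 30, 60} := by decide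
  rw [h2] at h1
  simp only [Finset.mem_insert, Finset.mem_singleton] at h1
  rcases h1 with h1 | h1 | h1 | h1 | h1 | h1 | h1 | h1 | h1 | h1 | h1 | h1
  · exact solvable_squarefree (by rw [h1]; decide +kernel)
  · exact solvable_squarefree (by rw [h1]; decide +kernel)
  · exact solvable_squarefree (by rw [h1]; decide +kernel)
  · exact solvable_four h1
  · exact solvable_squarefree (by rw [h1]; decide +kernel)
  · exact solvable_squarefree (by rw [h1]; decide +kernel)
  · exact solvable_squarefree (by rw [h1]; decide +kernel)
  · exact solvable_twelve h1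
  · exact solvable_squarefree (by rw [h1]; decide +kernel)
  · exact solvable_twenty h1
  · exact solvable_squarefree (by rw [h1]; decide +kernel)
  · exact absurd h1 h'

end Pool.Agent.V1134.SmallSolvable
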