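import Mathlib

/-!
# The affine group of the line over `ZMod p`
-/

set_option autoImplicit false

namespace Pool.Agent.V1134

/-- The affine group of the line over `ZMod p`: the pair `(u, t)` is the map `x ↦ u x + t`. -/
@[ext] structure Aff (p : ℕ) where
  u : (ZMod p)ˣ
  t : ZMod p

namespace Aff

variable {p : ℕ}

instance : Mul (Aff p) := ⟨fun x y => ⟨x.u * y.u, x.u * y.t + x.t⟩⟩
instance : One (Aff p) := ⟨⟨1, 0⟩⟩
instance : Inv (Aff p) := ⟨fun x => ⟨x.u⁻¹, -((x.u⁻¹ : (ZMod p)ˣ) * x.t)⟩⟩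

theorem mul_u (x y : Aff p) : (x * y).u = x.u * y.u := rfl
theorem mul_t (x y : Aff p) : (x * y).t = x.u * y.t + x.t := rfl
theorem one_u : (1 : Aff p).u = 1 := rfl
theorem one_t : (1 : Aff p).t = 0 := rfl
theorem inv_u (x : Aff p) : (x⁻¹).u = x.u⁻¹ := rfl
theorem inv_t (x : Aff p) : (x⁻¹).t = -((x.u⁻¹ : (ZMod p)ˣ) * x.t) := rfl

instance : Group (Aff p) := Group.ofLeftAxioms
  (by
    intro x y z
    ext
    · simp [mul_u, mul_assoc]
    · simp only [mul_t, mul_u, Units.val_mul]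
      ring)
  (by
    intro x
    ext
    · simp [mul_u, one_u]
    · simp [mul_t, one_t, one_u])
  (by
    intro x
    ext
    · simp [mul_u, one_u, inv_u]
    · simp [mul_t, one_t, inv_u, inv_t])

/-- The underlying product. -/
def equivProd : Aff p ≃ (ZMod p)ˣ × ZMod p where
  toFun x := (x.u, x.t)
  invFun x := ⟨x.1, x.2⟩
  left_inv _ := rfl
  right_inv _ := rfl

instance : DecidableEq (Aff p) := fun x y =>
  decidable_of_iff (x.u = y.u ∧ x.t = y.t)
    ⟨fun h => Aff.ext h.1 h.2, fun h => by subst h; exact ⟨rfl, rfl⟩⟩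

instance [NeZero p] : Finite (Aff p) := Finite.of_equiv _ equivProd.symm

noncomputable instance [NeZero p] : Fintype (Aff p) := Fintype.ofFinite _

theorem card_aff [hp : Fact p.Prime] : Nat.card (Aff p) = p * (p - 1) := by
  rw [Nat.card_congr equivProd, Nat.card_prod, Nat.card_eq_fintype_card, Nat.card_eq_fintype_card,
    ZMod.card, ZMod.card_units_eq_totient, Nat.totient_prime hp.out, mul_comm]

/-- The power formula. -/
theorem pow_formula (x : Aff p) (k : ℕ) :
    (x ^ k).u = x.u ^ k ∧ ((x.u : ZMod p) - 1) * (x ^ k).t = ((x.u : ZMod p) ^ k - 1) * x.t := by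
  induction k with
  | zero =>
    rw [pow_zero, pow_zero]
    exact ⟨rfl, by simp [one_t]⟩
  | succ k ih =>
    rw [pow_succ, pow_succ, mul_u, mul_t]
    refine ⟨by rw [ih.1], ?_⟩
    rw [mul_add, ih.2, ih.1, Units.val_pow_eq_pow_val]
    ring

theorem pow_eq_one_of_ne [hp : Fact p.Prime] (x : Aff p) (hx : x.u ≠ 1) (k : ℕ)
    (hk : x.u ^ k = 1) : x ^ k = 1 := by
  obtain ⟨h1, h2⟩ := pow_formula x k
  have h3 : (x.u : ZMod p) - 1 ≠ 0 := by
    intro h0
    apply hx
    apply Units.ext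
    rw [Units.val_one]
    exact sub_eq_zero.1 h0
  have h4 : (x.u : ZMod p) ^ k = 1 := by
    rw [← Units.val_pow_eq_pow_val, hk, Units.val_one]
  rw [h4, sub_self, zero_mul] at h2
  rcases mul_eq_zero.1 h2 with h5 | h5
  · exact absurd h5 h3
  · ext
    · rw [h1, hk]; rfl
    · rw [h5]; rfl

theorem pow_transl (x : Aff p) (hx : x.u = 1) (k : ℕ) :
    (x ^ k).u = 1 ∧ (x ^ k).t = (k : ZMod p) * x.t := by
  induction k with
  | zero =>
    rw [pow_zero]
    exact ⟨rfl, by simp [one_t]⟩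
  | succ k ih =>
    rw [pow_succ, mul_u, mul_t]
    refine ⟨by rw [ih.1, hx, one_mul], ?_⟩
    rw [ih.1, ih.2]
    push_cast
    ring

end Aff

end Pool.Agent.V1134
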