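import Mathlib

/-!
# Alternating counts of chains of `p`-subgroups
-/

set_option autoImplicit false

namespace Pool.Agent.V1134.Chains

section defs

variable {G : Type*} [Group G] (p : ℕ)

/-- A chain of subgroups of `H` with orders `p ^ b`, `b ∈ B`. -/
def IsCh (B : Finset ℕ) (H : Subgroup G) (U : B → Subgroup G) : Prop :=
  (∀ b, Nat.card (U b) = p ^ (b : ℕ)) ∧ (∀ b c, b ≤ c → U b ≤ U c) ∧ ∀ b, U b ≤ H

/-- The number of chains of subgroups of `H` with orders `p ^ b`, `b ∈ B`. -/
noncomputable def M (B : Finset ℕ) (H : Subgroup G) : ℕ :=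
  Nat.card {U : B → Subgroup G // IsCh p B H U}

/-- The alternating sum. -/
noncomputable def g (A : Finset ℕ) (H : Subgroup G) : ℤ :=
  ∑ B ∈ A.powerset, (-1) ^ B.card * (M p B H : ℤ)

variable {p}

theorem M_empty (H : Subgroup G) : M p ∅ H = 1 := by
  unfold M
  rw [Nat.card_eq_one_iff_unique]
  constructor
  · constructor
    rintro ⟨U, hU⟩ ⟨U', hU'⟩
    apply Subtype.ext
    funext b
    exact absurd b.2 (Finset.notMem_empty _)
  · exact ⟨⟨fun _ => ⊥, fun b => absurd b.2 (Finset.notMem_empty _),
      fun b => absurd b.2 (Finset.notMem_empty _), fun b => absurd b.2 (Finset.notMem_empty _)⟩⟩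

theorem g_empty (H : Subgroup G) : g p ∅ H = 1 := by
  unfold g
  rw [Finset.powerset_empty, Finset.sum_singleton, M_empty]
  simp

open scoped Classical in
/-- The recursion by the largest subgroup of a chain. -/
theorem M_insert [Finite G] [Fintype (Subgroup G)] (a : ℕ) (B : Finset ℕ) (h : ∀ b ∈ B, b < a)
    (H : Subgroup G) :
    M p (insert a B) H =
      ∑ V ∈ Finset.univ.filter (fun V : Subgroup G => V ≤ H ∧ Nat.card V = p ^ a), M p B V := by
  have haB : a ∉ B := fun ha => lt_irrefl _ (h a ha)
  have h1 : ∀ b : B, (b : ℕ) ≠ a := fun b hb => haB (hb ▸ b.2)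
  let e : {U : ↥(insert a B) → Subgroup G // IsCh p (insert a B) H U} ≃
      {z : Subgroup G × (B → Subgroup G) // (z.1 ≤ H ∧ Nat.card z.1 = p ^ a) ∧
        IsCh p B z.1 z.2} :=
    { toFun := fun U => ⟨(U.1 ⟨a, Finset.mem_insert_self a B⟩,
        fun b => U.1 ⟨b, Finset.mem_insert_of_mem b.2⟩), ⟨U.2.2.2 _, U.2.1 _⟩,
          fun b => U.2.1 _, fun b c hbc => U.2.2.1 _ _ hbc, fun b => U.2.2.1 _ _ (h b b.2).le⟩
      invFun := fun z => ⟨fun x => if hx : (x : ℕ) = a then z.1.1 else
          z.1.2 ⟨x, (Finset.mem_insert.1 x.2).resolve_left hx⟩, by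
        refine ⟨?_, ?_, ?_⟩
        · intro b
          by_cases hb : (b : ℕ) = a
          · simp only [hb, dif_pos]
            exact z.2.1.2
          · simp only [hb, dif_neg, not_false_iff]
            exact z.2.2.1 _
        · intro b c hbc
          by_cases hb : (b : ℕ) = a
          · have hc : (c : ℕ) = a := by
              have h1 : (b : ℕ) ≤ c := hbc
              rcases Finset.mem_insert.1 c.2 with h2 | h2
              · exact h2
              · have := h _ h2
                omega
            simp only [hb, hc, dif_pos]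
            exact le_rfl
          · by_cases hc : (c : ℕ) = a
            · simp only [hb, hc, dif_pos, dif_neg, not_false_iff]
              exact z.2.2.2.2 _
            · simp only [hb, hc, dif_neg, not_false_iff]
              exact z.2.2.2.1 _ _ hbc
        · intro b
          by_cases hb : (b : ℕ) = a
          · simp only [hb, dif_pos]
            exact z.2.1.1
          · simp only [hb, dif_neg, not_false_iff]
            exact le_trans (z.2.2.2.2 _) z.2.1.1⟩
      left_inv := fun U => by
        apply Subtype.ext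
        funext x
        by_cases hx : (x : ℕ) = a
        · simp only [hx, dif_pos]
          have h3 : (⟨a, Finset.mem_insert_self a B⟩ : ↥(insert a B)) = x := Subtype.ext hx.symm
          rw [h3]
        · simp only [hx, dif_neg, not_false_iff]
      right_inv := fun z => by
        obtain ⟨⟨V, U⟩, hz⟩ := z
        apply Subtype.ext
        apply Prod.ext
        · simp
        · funext b
          simp only [h1 b, dif_neg, not_false_iff] }
  unfold M
  rw [Nat.card_congr e, Nat.card_eq_fintype_card, Fintype.card_subtype, Finset.card_filter,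
    Fintype.sum_prod_type, Finset.sum_filter]
  apply Finset.sum_congr rfl
  intro V _
  by_cases hV : V ≤ H ∧ Nat.card V = p ^ a
  · rw [if_pos hV, Nat.card_eq_fintype_card, Fintype.card_subtype, Finset.card_filter]
    apply Finset.sum_congr rfl
    intro U _
    simp only [hV, true_and]
  · rw [if_neg hV]
    apply Finset.sum_eq_zero
    intro U _
    rw [if_neg (fun h => hV h.1)]

open scoped Classical in
/-- The recursion for the alternating sum. -/
theorem g_insert [Finite G] [Fintype (Subgroup G)] (a : ℕ) (A : Finset ℕ) (h : ∀ b ∈ A, b < a)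
    (H : Subgroup G) :
    g p (insert a A) H = g p A H -
      ∑ V ∈ Finset.univ.filter (fun V : Subgroup G => V ≤ H ∧ Nat.card V = p ^ a), g p A V := by
  have haA : a ∉ A := fun ha => lt_irrefl _ (h a ha)
  unfold g
  rw [Finset.sum_powerset_insert haA, Finset.sum_comm, sub_eq_add_neg, ← Finset.sum_neg_distrib]
  congr 1
  apply Finset.sum_congr rfl
  intro B hB
  have hBA := Finset.mem_powerset.1 hB
  rw [Finset.card_insert_of_notMem (fun h' => haA (hBA h')),
    M_insert a B (fun b hb => h b (hBA hb)) H]
  push_cast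
  rw [Finset.mul_sum, ← Finset.sum_neg_distrib]
  apply Finset.sum_congr rfl
  intro V _
  ring

theorem M_conj (B : Finset ℕ) (H : Subgroup G) (x : G) :
    M p B (H.map (MulAut.conj x).toMonoidHom) = M p B H := by
  unfold M
  symm
  have hinj : Function.Injective (MulAut.conj x).toMonoidHom := (MulAut.conj x).injective
  let E : Subgroup G ≃ Subgroup G := (MulAut.conj x).mapSubgroup.toEquiv
  have hE : ∀ K, E K = K.map (MulAut.conj x).toMonoidHom := fun K => rfl
  refine Nat.card_congr (Equiv.subtypeEquiv (Equiv.piCongrRight (fun _ : B => E)) ?_)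
  intro U
  unfold IsCh
  have h1 : ∀ K K' : Subgroup G, E K ≤ E K' ↔ K ≤ K' := fun K K' =>
    (MulAut.conj x).mapSubgroup.le_iff_le
  have h2 : ∀ K : Subgroup G, Nat.card (E K) = Nat.card K := by
    intro K
    rw [hE]
    exact (Nat.card_congr (Subgroup.equivMapOfInjective K _ hinj).toEquiv).symm
  simp only [Equiv.piCongrRight_apply, Pi.map_apply, h2, h1, ← hE H]

theorem g_conj (A : Finset ℕ) (H : Subgroup G) (x : G) :
    g p A (H.map (MulAut.conj x).toMonoidHom) = g p A H := by
  unfold g
  simp only [M_conj]

theorem M_eq_zero [Finite G] (B : Finset ℕ) (H : Subgroup G) (b : ℕ) (hb : b ∈ B)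
    (h : ¬ p ^ b ∣ Nat.card H) : M p B H = 0 := by
  unfold M
  rw [Nat.card_eq_zero]
  left
  constructor
  rintro ⟨U, hU⟩
  apply h
  rw [← hU.1 ⟨b, hb⟩]
  exact Subgroup.card_dvd_of_le (hU.2.2 _)

open scoped Classical in
theorem g_filter [Finite G] (A : Finset ℕ) (H : Subgroup G) :
    g p A H = g p (A.filter (fun b => p ^ b ∣ Nat.card H)) H := by
  unfold g
  symm
  apply Finset.sum_subset
  · exact Finset.powerset_mono.2 (Finset.filter_subset _ _)
  · intro B hB hB'
    rw [Finset.mem_powerset] at hB hB'
    have : ∃ b ∈ B, ¬ p ^ b ∣ Nat.card H := by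
      by_contra hcon
      apply hB'
      intro b hb
      rw [Finset.mem_filter]
      refine ⟨hB hb, ?_⟩
      by_contra hb'
      exact hcon ⟨b, hb, hb'⟩
    obtain ⟨b, hb, hb'⟩ := this
    rw [M_eq_zero B H b hb hb']
    simp

end defs

end Pool.Agent.V1134.Chains
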