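import Pool.Agent.V1134.Chains

/-!
# Counting subsets invariant under a subgroup
-/

set_option autoImplicit false

namespace Pool.Agent.V1134.Chains

/-- The subsets of `K` with `m` elements. -/
def Om (K : Type*) (m : ℕ) : Type _ := {S : Set K // S.ncard = m}

instance (K : Type*) [Finite K] (m : ℕ) : Finite (Om K m) := by
  unfold Om
  infer_instance

theorem card_Om (K : Type*) [Finite K] (m : ℕ) : Nat.card (Om K m) = (Nat.card K).choose m := by
  classical
  have := Fintype.ofFinite K
  have h1 : Nat.card (Om K m) = Nat.card {S : Finset K // S.card = m} := by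
    refine (Nat.card_congr (Equiv.subtypeEquiv Fintype.finsetEquivSet ?_)).symm
    intro S
    rw [Fintype.coe_finsetEquivSet, Set.ncard_coe_finset]
  rw [h1, Nat.card_eq_fintype_card, Fintype.card_finset_len, Nat.card_eq_fintype_card]

variable {K : Type*} [Group K]

theorem ncard_preimage_mul (S : Set K) (h : K) : ((fun x => x * h) ⁻¹' S).ncard = S.ncard := by
  have h1 : (fun x => x * h) ⁻¹' S = (fun x => x * h⁻¹) '' S := by
    ext x
    simp only [Set.mem_preimage, Set.mem_image]
    constructor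
    · intro hx
      exact ⟨x * h, hx, by group⟩
    · rintro ⟨y, hy, rfl⟩
      simpa using hy
  rw [h1]
  exact Set.ncard_image_of_injective S (mul_left_injective h⁻¹)

instance (m : ℕ) : MulAction K (Om K m) where
  smul h S := ⟨(fun x => x * h) ⁻¹' S.1, by rw [ncard_preimage_mul, S.2]⟩
  one_smul S := by
    apply Subtype.ext
    ext x
    show x * 1 ∈ S.1 ↔ x ∈ S.1
    rw [mul_one]
  mul_smul h h' S := by
    apply Subtype.ext
    ext x
    show x * (h * h') ∈ S.1 ↔ x * h * h' ∈ S.1
    rw [mul_assoc]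

theorem mem_smul {m : ℕ} (h : K) (S : Om K m) (x : K) : x ∈ (h • S).1 ↔ x * h ∈ S.1 := Iff.rfl

theorem mem_stab {m : ℕ} (h : K) (S : Om K m) :
    h ∈ MulAction.stabilizer K S ↔ ∀ x, x * h ∈ S.1 ↔ x ∈ S.1 := by
  rw [MulAction.mem_stabilizer_iff]
  constructor
  · intro h1 x
    rw [← mem_smul, h1]
  · intro h1
    apply Subtype.ext
    ext x
    rw [mem_smul]
    exact h1 x

/-- A set is invariant under right multiplication by `V` if and only if it is the preimage of
its image in the space of cosets. -/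
theorem le_stab_iff {m : ℕ} (V : Subgroup K) (S : Om K m) :
    V ≤ MulAction.stabilizer K S ↔
      (QuotientGroup.mk ⁻¹' (QuotientGroup.mk '' S.1 : Set (K ⧸ V))) = S.1 := by
  constructor
  · intro h
    apply Set.Subset.antisymm
    · intro x hx
      obtain ⟨y, hy, hyx⟩ := hx
      have h1 : y⁻¹ * x ∈ V := QuotientGroup.eq.1 hyx
      have h2 := (mem_stab _ S).1 (h h1) y
      rw [show y * (y⁻¹ * x) = x by group] at h2
      exact h2.2 hy
    · exact Set.subset_preimage_image _ _
  · intro h v hv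
    rw [mem_stab]
    intro x
    rw [← h]
    simp only [Set.mem_preimage]
    have : (QuotientGroup.mk (x * v) : K ⧸ V) = QuotientGroup.mk x := by
      rw [QuotientGroup.eq]
      have : (x * v)⁻¹ * x = v⁻¹ := by group
      rw [this]
      exact V.inv_mem hv
    rw [this]

theorem ncard_preimage_mk [Finite K] (V : Subgroup K) (T : Set (K ⧸ V)) :
    (QuotientGroup.mk ⁻¹' T : Set K).ncard = Nat.card V * T.ncard := by
  rw [← Nat.card_coe_set_eq, Nat.card_congr (QuotientGroup.preimageMkEquivSubgroupProdSet V T),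
    Nat.card_prod, Nat.card_coe_set_eq]

/-- the number of invariant subsets -/
theorem card_invariant [Finite K] (V : Subgroup K) (c : ℕ) :
    Nat.card {S : Om K (Nat.card V * c) // V ≤ MulAction.stabilizer K S} =
      (Nat.card (K ⧸ V)).choose c := by
  rw [← card_Om (K ⧸ V) c]
  have hV : 0 < Nat.card V := Nat.card_pos
  refine Nat.card_congr
    { toFun := fun S => ⟨QuotientGroup.mk '' S.1.1, ?_⟩
      invFun := fun T => ⟨⟨QuotientGroup.mk ⁻¹' T.1, ?_⟩, ?_⟩
      left_inv := ?_
      right_inv := ?_ }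
  · have h1 := (le_stab_iff V S.1).1 S.2
    have h2 := ncard_preimage_mk V (QuotientGroup.mk '' S.1.1)
    rw [h1, S.1.2] at h2
    exact (Nat.eq_of_mul_eq_mul_left hV h2).symm
  · rw [ncard_preimage_mk, T.2]
  · refine (le_stab_iff V _).2 ?_
    show QuotientGroup.mk ⁻¹' (QuotientGroup.mk '' (QuotientGroup.mk ⁻¹' T.1)) =
      QuotientGroup.mk ⁻¹' T.1
    rw [Set.image_preimage_eq _ QuotientGroup.mk_surjective]
  · intro S
    apply Subtype.ext
    apply Subtype.ext
    exact (le_stab_iff V S.1).1 S.2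
  · intro T
    apply Subtype.ext
    exact Set.image_preimage_eq _ QuotientGroup.mk_surjective

theorem card_invariant' [Finite K] (V : Subgroup K) (m c : ℕ) (h : m = Nat.card V * c) :
    Nat.card {S : Om K m // V ≤ MulAction.stabilizer K S} = (Nat.card (K ⧸ V)).choose c := by
  subst h
  exact card_invariant V c

/-- the order of a stabilizer divides the size of the subset -/
theorem card_stab_dvd [Finite K] {m : ℕ} (S : Om K m) :
    Nat.card (MulAction.stabilizer K S) ∣ m := by
  have h1 := (le_stab_iff (MulAction.stabilizer K S) S).1 le_rfl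
  have h2 := ncard_preimage_mk (MulAction.stabilizer K S) (QuotientGroup.mk '' S.1)
  rw [h1, S.2] at h2
  exact Dvd.intro _ h2.symm

/-- the binomial congruence -/
theorem choose_congr (p : ℕ) (hp : p.Prime) (N k l : ℕ) (hl : 1 ≤ l) :
    ((p : ℤ) ^ (k + 1)) ∣ ((N * p ^ (k + 1)).choose (p ^ l) : ℤ) -
      ((N * p ^ k).choose (p ^ (l - 1)) : ℤ) := by
  -- polynomial congruence
  have h1 : ((p : Polynomial ℤ)) ∣ (Polynomial.X + 1) ^ p - (Polynomial.X ^ p + 1) := by
    obtain ⟨r, hr⟩ := exists_add_pow_prime_eq hp (Polynomial.X : Polynomial ℤ) 1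
    rw [hr, one_pow]
    refine ⟨Polynomial.X * r, ?_⟩
    ring
  have h3 := dvd_sub_pow_of_dvd_sub h1 k
  have h4 : ((p : Polynomial ℤ) ^ (k + 1)) ∣ (((Polynomial.X + 1) ^ p) ^ p ^ k) ^ N -
      ((Polynomial.X ^ p + 1) ^ p ^ k) ^ N := h3.trans (sub_dvd_pow_sub_pow _ _ N)
  have e1 : (((Polynomial.X + 1 : Polynomial ℤ) ^ p) ^ p ^ k) ^ N =
      (Polynomial.X + 1) ^ (N * p ^ (k + 1)) := by
    rw [← pow_mul, ← pow_mul]
    congr 1
    ring
  have e2 : (((Polynomial.X ^ p + 1 : Polynomial ℤ)) ^ p ^ k) ^ N =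
      Polynomial.expand ℤ p ((Polynomial.X + 1) ^ (N * p ^ k)) := by
    rw [← pow_mul, map_pow, map_add, Polynomial.expand_X, map_one]
    congr 1
    ring
  rw [e1, e2] at h4
  have e3 : ((p : Polynomial ℤ) ^ (k + 1)) = Polynomial.C ((p : ℤ) ^ (k + 1)) := by
    simp
  rw [e3, Polynomial.C_dvd_iff_dvd_coeff] at h4
  have h5 := h4 (p ^ l)
  obtain ⟨l', rfl⟩ : ∃ l', l = l' + 1 := ⟨l - 1, by omega⟩
  have e4 : p ^ (l' + 1) = p ^ l' * p := pow_succ p l'
  rw [Polynomial.coeff_sub, Polynomial.coeff_X_add_one_pow] at h5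
  rw [e4, Polynomial.coeff_expand_mul hp.pos, Polynomial.coeff_X_add_one_pow, ← e4] at h5
  simpa using h5

end Pool.Agent.V1134.Chains
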