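import Pool.Agent.V1134.ChainsCount

/-!
# The congruence for alternating chain counts
-/

set_option autoImplicit false

namespace Pool.Agent.V1134.Chains

open scoped Classical in
theorem dvd_sum_of_invariant_int {K X : Type*} [Group K] [Fintype X] [MulAction K X]
    (f : X → ℤ) (n : ℤ) (hinv : ∀ (k : K) (x : X), f (k • x) = f x)
    (h : ∀ x, n ∣ (Nat.card (MulAction.orbit K x) : ℤ) * f x) : n ∣ ∑ x, f x := by
  let q : X → MulAction.orbitRel.Quotient K X := fun x => Quotient.mk _ x
  rw [← Finset.sum_fiberwise_of_maps_to (g := q) (t := Finset.univ.image q)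
    (fun x hx => Finset.mem_image_of_mem q hx)]
  apply Finset.dvd_sum
  intro w hw
  obtain ⟨x₀, -, rfl⟩ := Finset.mem_image.1 hw
  have h1 : ∀ x, q x = q x₀ ↔ x ∈ MulAction.orbit K x₀ := by
    intro x
    exact Quotient.eq.trans MulAction.orbitRel_apply
  have h2 : ∀ x ∈ Finset.univ.filter (fun x => q x = q x₀), f x = f x₀ := by
    intro x hx
    rw [Finset.mem_filter, h1] at hx
    obtain ⟨k, hk⟩ := hx.2
    rw [← hk]
    exact hinv k x₀
  rw [Finset.sum_congr rfl h2, Finset.sum_const, nsmul_eq_mul]
  have h3 : (Finset.univ.filter (fun x => q x = q x₀)).card =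
      Nat.card (MulAction.orbit K x₀) := by
    rw [Nat.card_eq_fintype_card, ← Set.toFinset_card]
    congr 1
    ext x
    simp only [Finset.mem_filter, Finset.mem_univ, true_and, Set.mem_toFinset]
    exact h1 x
  rw [h3]
  exact h x₀

variable {G : Type*} [Group G] {p : ℕ}

/-- The stabilizer of a subset as a subgroup of `G`. -/
def St (H : Subgroup G) {m : ℕ} (S : Om H m) : Subgroup G :=
  (MulAction.stabilizer H S).map H.subtype

theorem St_le (H : Subgroup G) {m : ℕ} (S : Om H m) : St H S ≤ H := by
  unfold St
  rintro _ ⟨x, -, rfl⟩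
  exact x.2

theorem card_St (H : Subgroup G) {m : ℕ} (S : Om H m) :
    Nat.card (St H S) = Nat.card (MulAction.stabilizer H S) :=
  (Nat.card_congr (Subgroup.equivMapOfInjective _ _ H.subtype_injective).toEquiv).symm

theorem le_St_iff (H V : Subgroup G) (hV : V ≤ H) {m : ℕ} (S : Om H m) :
    V ≤ St H S ↔ V.subgroupOf H ≤ MulAction.stabilizer H S := by
  unfold St
  constructor
  · intro h x hx
    obtain ⟨y, hy, hyx⟩ := h hx
    have : y = x := Subtype.ext hyx
    rw [← this]
    exact hy
  · intro h x hx
    exact ⟨⟨x, hV hx⟩, h hx, rfl⟩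

theorem g_St_smul (A : Finset ℕ) (H : Subgroup G) {m : ℕ} (h : H) (S : Om H m) :
    g p A (St H (h • S)) = g p A (St H S) := by
  have h1 : St H (h • S) = (St H S).map (MulAut.conj (h : G)).toMonoidHom := by
    unfold St
    rw [MulAction.stabilizer_smul_eq_stabilizer_map_conj, Subgroup.map_map, Subgroup.map_map]
    rfl
  rw [h1, g_conj]

variable [Finite G]

/-- The binomial coefficients. -/
noncomputable def y (p : ℕ) (H : Subgroup G) (a j : ℕ) : ℤ :=
  ((Nat.card H / p ^ j).choose (p ^ (a - j)) : ℤ)

theorem card_le_St (hp : p.Prime) (H V : Subgroup G) (hV : V ≤ H) (a j : ℕ) (hja : j ≤ a)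
    (hcV : Nat.card V = p ^ j) :
    (Nat.card {S : Om H (p ^ a) // V ≤ St H S} : ℤ) = y p H a j := by
  have hc : Nat.card (V.subgroupOf H) = p ^ j := by
    rw [← hcV]
    exact Nat.card_congr (Subgroup.subgroupOfEquivOfLe hV).toEquiv
  have h1 := card_invariant' (V.subgroupOf H) (p ^ a) (p ^ (a - j)) (by
    rw [hc, ← pow_add]
    congr 1
    omega)
  have h2 : Nat.card {S : Om H (p ^ a) // V ≤ St H S} =
      Nat.card {S : Om H (p ^ a) // V.subgroupOf H ≤ MulAction.stabilizer H S} :=
    Nat.card_congr (Equiv.subtypeEquivRight (fun S => le_St_iff H V hV S))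
  have h3 : Nat.card (H ⧸ V.subgroupOf H) = Nat.card H / p ^ j := by
    have h4 := Subgroup.card_mul_index (V.subgroupOf H)
    rw [hc] at h4
    rw [← h4, Nat.mul_div_cancel_left _ (pow_pos hp.pos _)]
    rfl
  rw [h2, h1, h3]
  rfl

open scoped Classical in
/-- The sum over the subsets of `H` with `p ^ a` elements. -/
noncomputable def E (p : ℕ) (A : Finset ℕ) (H : Subgroup G) (a : ℕ) : ℤ :=
  let _ := Fintype.ofFinite (Om H (p ^ a))
  ∑ S : Om H (p ^ a), g p A (St H S)

theorem E_empty (H : Subgroup G) (a : ℕ) : E p ∅ H a = y p H a 0 := by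
  unfold E y
  simp only [g_empty, Finset.sum_const, Finset.card_univ, nsmul_eq_mul, mul_one, pow_zero,
    Nat.div_one, Nat.sub_zero]
  let _ := Fintype.ofFinite (Om H (p ^ a))
  rw [← Nat.card_eq_fintype_card, card_Om]

open scoped Classical in
theorem E_insert (hp : p.Prime) (H : Subgroup G) (a m : ℕ) (A : Finset ℕ) (h : ∀ b ∈ A, b < m)
    (hma : m ≤ a) :
    E p (insert m A) H a = E p A H a - y p H a m * (g p A H - g p (insert m A) H) := by
  have := Fintype.ofFinite (Subgroup G)
  unfold E
  let _ := Fintype.ofFinite (Om H (p ^ a))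
  have h1 : ∀ S : Om H (p ^ a), g p (insert m A) (St H S) = g p A (St H S) -
      ∑ V ∈ Finset.univ.filter (fun V : Subgroup G => V ≤ H ∧ Nat.card V = p ^ m),
        if V ≤ St H S then g p A V else 0 := by
    intro S
    rw [g_insert m A h (St H S)]
    congr 1
    rw [← Finset.sum_filter, Finset.filter_filter]
    apply Finset.sum_congr _ (fun _ _ => rfl)
    ext V
    simp only [Finset.mem_filter, Finset.mem_univ, true_and]
    constructor
    · rintro ⟨h2, h3⟩
      exact ⟨⟨h2.trans (St_le H S), h3⟩, h2⟩
    · rintro ⟨⟨h2, h3⟩, h4⟩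
      exact ⟨h4, h3⟩
  rw [Finset.sum_congr rfl (fun S _ => h1 S), Finset.sum_sub_distrib, Finset.sum_comm]
  congr 1
  have h2 := g_insert m A h H (p := p)
  have h3 : g p A H - g p (insert m A) H =
      ∑ V ∈ Finset.univ.filter (fun V : Subgroup G => V ≤ H ∧ Nat.card V = p ^ m), g p A V := by
    rw [h2]
    ring
  rw [h3, Finset.mul_sum]
  apply Finset.sum_congr rfl
  intro V hV
  rw [Finset.mem_filter] at hV
  rw [← card_le_St hp H V hV.2.1 a m hma hV.2.2, ← Finset.sum_filter, Finset.sum_const,
    nsmul_eq_mul]
  congr 2
  rw [Nat.card_eq_fintype_card, Fintype.card_subtype]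

omit [Finite G] in
/-- consecutive binomial coefficients -/
theorem y_succ (hp : p.Prime) (H : Subgroup G) (t n a j : ℕ) (hH : Nat.card H = n * p ^ t)
    (hj : j < a) (ha : a ≤ t) : ((p : ℤ) ^ (t - j)) ∣ y p H a j - y p H a (j + 1) := by
  have h1 : Nat.card H / p ^ j = n * p ^ (t - j) := by
    rw [hH, show t = (t - j) + j by omega, pow_add, ← mul_assoc,
      Nat.mul_div_cancel _ (pow_pos hp.pos _)]
    congr 2
    omega
  have h2 : Nat.card H / p ^ (j + 1) = n * p ^ (t - j - 1) := by
    rw [hH, show t = (t - j - 1) + (j + 1) by omega, pow_add, ← mul_assoc,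
      Nat.mul_div_cancel _ (pow_pos hp.pos _)]
    congr 2
    omega
  unfold y
  rw [h1, h2]
  have h3 := choose_congr p hp n (t - j - 1) (a - j) (by omega)
  rw [show t - j - 1 + 1 = t - j by omega, show a - j - 1 = a - (j + 1) by omega] at h3
  exact h3

omit [Finite G] in
theorem y_diff (hp : p.Prime) (H : Subgroup G) (t n a m : ℕ) (hH : Nat.card H = n * p ^ t)
    (hm : m ≤ a) (ha : a ≤ t) (m' : ℕ) : ∀ i, m' + i ≤ m →
    ((p : ℤ) ^ (t + 1 - m)) ∣ y p H a m' - y p H a (m' + i) := by
  intro i
  induction i with
  | zero =>
    intro _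
    rw [add_zero, sub_self]
    exact dvd_zero _
  | succ i ih =>
    intro hi
    have h1 := ih (by omega)
    have h2 := y_succ hp H t n a (m' + i) hH (by omega) ha
    have h3 : ((p : ℤ) ^ (t + 1 - m)) ∣ y p H a (m' + i) - y p H a (m' + i + 1) :=
      (pow_dvd_pow _ (by omega)).trans h2
    have h4 := dvd_add h1 h3
    rw [sub_add_sub_cancel] at h4
    exact h4

open scoped Classical in
theorem main (hp : p.Prime) : ∀ (N : ℕ) (H : Subgroup G), Nat.card H = N → ∀ A : Finset ℕ,
    ((p : ℤ) ^ (A.filter (fun b => p ^ b ∣ Nat.card H)).card) ∣ g p A H := by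
  intro N
  induction N using Nat.strong_induction_on with
  | _ N ih =>
  intro H hN
  have hH0 : Nat.card H ≠ 0 := Nat.card_pos.ne'
  set t := (Nat.card H).factorization p with ht
  set n := ordCompl[p] (Nat.card H) with hn
  have hH : Nat.card H = n * p ^ t := by
    rw [mul_comm]
    exact (Nat.ordProj_mul_ordCompl_eq_self (Nat.card H) p).symm
  have hcop : Nat.Coprime p n := Nat.coprime_ordCompl hp hH0
  have hle : ∀ b, p ^ b ∣ Nat.card H → b ≤ t := by
    intro b hb
    exact (hp.pow_dvd_iff_le_factorization hH0).1 hb
  -- the main claim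
  have key : ∀ A : Finset ℕ, (∀ b ∈ A, p ^ b ∣ Nat.card H) →
      ((p : ℤ) ^ A.card ∣ g p A H ∧ ∀ a, (∀ b ∈ A, b ≤ a) → a ≤ t → p ^ a ∣ Nat.card H →
        ((p : ℤ) ^ (t + A.card - A.sup id) ∣ E p A H a - g p A H * y p H a (A.sup id))) := by
    intro A
    induction A using Finset.induction_on_max with
    | empty =>
      intro _
      refine ⟨by simp, ?_⟩
      intro a _ _ _
      rw [E_empty, g_empty]
      simp
    | insert m A' hA' ihA =>
      intro hdvd
      have hm : p ^ m ∣ Nat.card H := hdvd m (Finset.mem_insert_self _ _)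
      have hmt : m ≤ t := hle m hm
      obtain ⟨ih1, ih2⟩ := ihA (fun b hb => hdvd b (Finset.mem_insert_of_mem hb))
      have hmA' : m ∉ A' := fun h => lt_irrefl _ (hA' m h)
      have hcard : (insert m A').card = A'.card + 1 := Finset.card_insert_of_notMem hmA'
      have hsup : (insert m A').sup id = m := by
        rw [Finset.sup_insert]
        apply sup_eq_left.2
        apply Finset.sup_le
        intro b hb
        exact (hA' b hb).le
      have hC : ∀ a, (∀ b ∈ insert m A', b ≤ a) → a ≤ t → p ^ a ∣ Nat.card H →
          ((p : ℤ) ^ (t + (insert m A').card - (insert m A').sup id) ∣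
            E p (insert m A') H a - g p (insert m A') H * y p H a ((insert m A').sup id)) := by
        intro a ha hat hpa
        have hma : m ≤ a := ha m (Finset.mem_insert_self _ _)
        rw [hsup, hcard, E_insert hp H a m A' hA' hma]
        have e1 : E p A' H a - y p H a m * (g p A' H - g p (insert m A') H) -
            g p (insert m A') H * y p H a m = E p A' H a - g p A' H * y p H a m := by ring
        rw [e1]
        rcases Nat.eq_zero_or_pos m with hm0 | hm0
        · have hA'e : A' = ∅ := by
            rw [Finset.eq_empty_iff_forall_notMem]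
            intro b hb
            have := hA' b hb
            omega
          rw [hA'e, hm0, E_empty, g_empty]
          simp
        · have hs : A'.sup id ≤ m - 1 := by
            apply Finset.sup_le
            intro b hb
            have := hA' b hb
            simp only [id]
            omega
          have h1 := ih2 a (fun b hb => (hA' b hb).le.trans hma) hat hpa
          have h2 := y_diff hp H t n a m hH hma hat (A'.sup id) (m - A'.sup id) (by omega)
          rw [show A'.sup id + (m - A'.sup id) = m by omega] at h2
          have h3 : ((p : ℤ) ^ (t + (A'.card + 1) - m)) ∣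
              g p A' H * (y p H a (A'.sup id) - y p H a m) := by
            rw [show t + (A'.card + 1) - m = A'.card + (t + 1 - m) by omega, pow_add]
            exact mul_dvd_mul ih1 h2
          have h4 : ((p : ℤ) ^ (t + (A'.card + 1) - m)) ∣
              E p A' H a - g p A' H * y p H a (A'.sup id) :=
            (pow_dvd_pow _ (by omega)).trans h1
          have h5 := dvd_add h4 h3
          have e2 : E p A' H a - g p A' H * y p H a m =
              E p A' H a - g p A' H * y p H a (A'.sup id) +
                g p A' H * (y p H a (A'.sup id) - y p H a m) := by ring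
          rw [e2]
          exact h5
      refine ⟨?_, hC⟩
      by_cases hpm : p ^ m = Nat.card H
      · have := Fintype.ofFinite (Subgroup G)
        rw [g_insert m A' hA' H]
        have h1 : Finset.univ.filter (fun V : Subgroup G => V ≤ H ∧ Nat.card V = p ^ m) = {H} := by
          ext V
          simp only [Finset.mem_filter, Finset.mem_univ, true_and, Finset.mem_singleton]
          constructor
          · rintro ⟨h1, h2⟩
            exact Subgroup.eq_of_le_of_card_ge h1 (by rw [h2, hpm])
          · rintro rfl
            exact ⟨le_rfl, hpm.symm⟩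
        rw [h1, Finset.sum_singleton, sub_self]
        exact dvd_zero _
      · have hlt : p ^ m < Nat.card H :=
          lt_of_le_of_ne (Nat.le_of_dvd Nat.card_pos hm) hpm
        have hC' := hC m (by
          intro b hb
          rcases Finset.mem_insert.1 hb with rfl | hb
          · exact le_rfl
          · exact (hA' b hb).le) hmt hm
        rw [hsup] at hC'
        set A := insert m A' with hA
        have hE : ((p : ℤ) ^ (t + A.card - m)) ∣ E p A H m := by
          unfold E
          let _ := Fintype.ofFinite (Om H (p ^ m))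
          apply dvd_sum_of_invariant_int (K := H)
          · intro h S
            exact g_St_smul A H h S
          · intro S
            have h1 : Nat.card (MulAction.stabilizer H S) ∣ p ^ m := card_stab_dvd S
            obtain ⟨b, hbm, hb⟩ := (Nat.dvd_prime_pow hp).1 h1
            have hSt : Nat.card (St H S) = p ^ b := by rw [card_St, hb]
            have h2 : Nat.card (MulAction.orbit H S) * p ^ b = Nat.card H := by
              rw [← hb, Nat.card_coe_set_eq, ← MulAction.index_stabilizer,
                Subgroup.index_mul_card]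
            have h3 : p ^ (t - b) ∣ Nat.card (MulAction.orbit H S) := by
              have h4 : p ^ (t - b) * p ^ b ∣ Nat.card (MulAction.orbit H S) * p ^ b := by
                rw [← pow_add, show t - b + b = t by omega, h2, hH]
                exact dvd_mul_left _ _
              exact Nat.dvd_of_mul_dvd_mul_right (pow_pos hp.pos _) h4
            have h4 := ih (Nat.card (St H S)) (by
              rw [← hN, hSt]
              exact lt_of_le_of_lt (Nat.pow_le_pow_right hp.pos hbm) hlt) (St H S) rfl A
            have h5 : A.card ≤ (A.filter (fun x => p ^ x ∣ Nat.card (St H S))).card + (m - b) := by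
              have h6 : A ⊆ (A.filter (fun x => p ^ x ∣ Nat.card (St H S))) ∪
                  Finset.Ioc b m := by
                intro x hx
                rw [Finset.mem_union, Finset.mem_filter, Finset.mem_Ioc, hSt]
                by_cases hxb : x ≤ b
                · exact Or.inl ⟨hx, pow_dvd_pow _ hxb⟩
                · right
                  refine ⟨by omega, ?_⟩
                  rcases Finset.mem_insert.1 hx with rfl | hx
                  · exact le_rfl
                  · exact (hA' x hx).le
              have h7 := (Finset.card_le_card h6).trans (Finset.card_union_le _ _)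
              rwa [Nat.card_Ioc] at h7
            have h8 : ((p : ℤ) ^ (t - b)) ∣ (Nat.card (MulAction.orbit H S) : ℤ) := by
              exact_mod_cast h3
            refine (pow_dvd_pow _ ?_).trans (pow_add (p : ℤ) (t - b) _ ▸ mul_dvd_mul h8 h4)
            omega
        have h1 : ((p : ℤ) ^ (t + A.card - m)) ∣ g p A H * y p H m m := by
          have h2 := dvd_sub hE hC'
          rw [sub_sub_cancel] at h2
          exact h2
        have h2 : y p H m m = n * (p : ℤ) ^ (t - m) := by
          unfold y
          rw [Nat.sub_self, pow_zero, Nat.choose_one_right, hH,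
            show p ^ t = p ^ (t - m) * p ^ m by rw [← pow_add]; congr 1; omega,
            ← mul_assoc, Nat.mul_div_cancel _ (pow_pos hp.pos _)]
          push_cast
          ring
        rw [h2, show t + A.card - m = A.card + (t - m) by omega, pow_add, ← mul_assoc] at h1
        have h3 := Int.dvd_of_mul_dvd_mul_right (pow_ne_zero _ (by exact_mod_cast hp.ne_zero)) h1
        have h4 : IsCoprime ((p : ℤ) ^ A.card) (n : ℤ) := by
          apply IsCoprime.pow_left
          exact Nat.isCoprime_iff_coprime.2 hcop
        exact h4.dvd_of_dvd_mul_right h3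
  intro A
  rw [g_filter A H]
  exact (key _ (fun b hb => (Finset.mem_filter.1 hb).2)).1

end Pool.Agent.V1134.Chains
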