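import Mathlib

/-!
# The number of elements of `p`-power order is divisible by the order of a Sylow `p`-subgroup
-/

set_option autoImplicit false

namespace Pool.Agent.V1134.Frob

open scoped Classical in
theorem dvd_sum_of_invariant {K X : Type*} [Group K] [Fintype X] [MulAction K X]
    (f : X → ℕ) (n : ℕ) (hinv : ∀ (k : K) (x : X), f (k • x) = f x)
    (h : ∀ x, n ∣ Nat.card (MulAction.orbit K x) * f x) : n ∣ ∑ x, f x := by
  let q : X → MulAction.orbitRel.Quotient K X := fun x => Quotient.mk _ x
  rw [← Finset.sum_fiberwise_of_maps_to (g := q) (t := Finset.univ.image q)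
    (fun x hx => Finset.mem_image_of_mem q hx)]
  apply Finset.dvd_sum
  intro w hw
  obtain ⟨x₀, -, rfl⟩ := Finset.mem_image.1 hw
  have h1 : ∀ x, q x = q x₀ ↔ x ∈ MulAction.orbit K x₀ := by
    intro x
    exact Quotient.eq.trans MulAction.orbitRel_apply
  have h2 : ∀ x ∈ Finset.univ.filter (fun x => q x = q x₀), f x = f x₀ := by
    intro x hx
    rw [Finset.mem_filter, h1] at hx
    obtain ⟨k, hk⟩ := hx.2
    rw [← hk]
    exact hinv k x₀
  rw [Finset.sum_congr rfl h2, Finset.sum_const, smul_eq_mul]
  have h3 : (Finset.univ.filter (fun x => q x = q x₀)).card =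
      Nat.card (MulAction.orbit K x₀) := by
    rw [Nat.card_eq_fintype_card, ← Set.toFinset_card]
    congr 1
    ext x
    simp only [Finset.mem_filter, Finset.mem_univ, true_and, Set.mem_toFinset]
    exact h1 x
  rw [h3]
  exact h x₀

open scoped Classical in
/-- the decomposition of the elements of a finite group into commuting products -/
theorem card_eq_sum {G : Type*} [Group G] [Fintype G] (P M : ℕ) (hPM : P * M = Nat.card G)
    (hc : Nat.Coprime P M) :
    Nat.card G = ∑ y : G, if y ^ M = 1 then Nat.card {u : G // u ^ P = 1 ∧ Commute y u} else 0 := by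
  have hexp : ∀ g : G, g ^ (P * M) = 1 := by
    intro g
    rw [hPM]
    exact pow_card_eq_one'
  obtain ⟨e, he1, he2⟩ := Nat.chineseRemainder hc 0 1
  obtain ⟨f, hf1, hf2⟩ := Nat.chineseRemainder hc 1 0
  have heP : P ∣ e := (Nat.modEq_zero_iff_dvd).1 he1
  have hfM : M ∣ f := (Nat.modEq_zero_iff_dvd).1 hf2
  have hef : e + f ≡ 1 [MOD P * M] := by
    rw [← Nat.modEq_and_modEq_iff_modEq_mul hc]
    constructor
    · simpa using he1.add hf1
    · simpa using he2.add hf2
  have hpe : ∀ y : G, y ^ M = 1 → y ^ e = y := by
    intro y hy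
    have : y ^ e = y ^ 1 := by
      rw [pow_eq_pow_iff_modEq]
      exact he2.of_dvd (orderOf_dvd_of_pow_eq_one hy)
    rwa [pow_one] at this
  have hpf : ∀ y : G, y ^ P = 1 → y ^ f = y := by
    intro y hy
    have : y ^ f = y ^ 1 := by
      rw [pow_eq_pow_iff_modEq]
      exact hf1.of_dvd (orderOf_dvd_of_pow_eq_one hy)
    rwa [pow_one] at this
  have hye : ∀ y : G, y ^ P = 1 → y ^ e = 1 := by
    intro y hy
    obtain ⟨t, rfl⟩ := heP
    rw [pow_mul, hy, one_pow]
  have hyf : ∀ y : G, y ^ M = 1 → y ^ f = 1 := by
    intro y hy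
    obtain ⟨t, rfl⟩ := hfM
    rw [pow_mul, hy, one_pow]
  have hgM : ∀ g : G, (g ^ e) ^ M = 1 := by
    intro g
    obtain ⟨t, rfl⟩ := heP
    rw [← pow_mul, show P * t * M = P * M * t by ring, pow_mul, hexp, one_pow]
  have hgP : ∀ g : G, (g ^ f) ^ P = 1 := by
    intro g
    obtain ⟨t, rfl⟩ := hfM
    rw [← pow_mul, show M * t * P = P * M * t by ring, pow_mul, hexp, one_pow]
  let E : G ≃ {z : G × G // z.1 ^ M = 1 ∧ z.2 ^ P = 1 ∧ Commute z.1 z.2} :=
    { toFun := fun g => ⟨(g ^ e, g ^ f), hgM g, hgP g, (Commute.refl g).pow_pow e f⟩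
      invFun := fun z => z.1.1 * z.1.2
      left_inv := fun g => by
        show g ^ e * g ^ f = g
        rw [← pow_add]
        have : g ^ (e + f) = g ^ 1 := by
          rw [pow_eq_pow_iff_modEq]
          exact hef.of_dvd (orderOf_dvd_of_pow_eq_one (hexp g))
        rwa [pow_one] at this
      right_inv := fun z => by
        obtain ⟨⟨y, u⟩, hy, hu, hc⟩ := z
        have hc' : Commute y u := hc
        have h1 : (y * u) ^ e = y := by
          rw [hc'.mul_pow, hpe y hy, hye u hu, mul_one]
        have h2 : (y * u) ^ f = u := by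
          rw [hc'.mul_pow, hyf y hy, hpf u hu, one_mul]
        exact Subtype.ext (Prod.ext h1 h2) }
  rw [Nat.card_congr E, Nat.card_eq_fintype_card, Fintype.card_subtype, Finset.card_filter,
    Fintype.sum_prod_type]
  apply Finset.sum_congr rfl
  intro y _
  by_cases hy : y ^ M = 1
  · rw [if_pos hy, Nat.card_eq_fintype_card, Fintype.card_subtype, Finset.card_filter]
    apply Finset.sum_congr rfl
    intro u _
    simp [hy]
  · rw [if_neg hy]
    apply Finset.sum_eq_zero
    intro u _
    simp [hy]

/-- The order of a Sylow `p`-subgroup divides the number of elements of `p`-power order. -/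
theorem frob (p : ℕ) [hp : Fact p.Prime] : ∀ (n : ℕ) (G : Type*) [Group G] [Finite G],
    Nat.card G = n → ordProj[p] n ∣ Nat.card {u : G // ∃ k : ℕ, u ^ p ^ k = 1} := by
  intro n
  induction n using Nat.strong_induction_on with
  | _ n ih =>
  intro G _ _ hn
  classical
  have := Fintype.ofFinite G
  have hn0 : n ≠ 0 := by
    rw [← hn]
    exact Nat.card_pos.ne'
  set P := ordProj[p] n with hP
  set M := ordCompl[p] n with hM
  have hPM : P * M = Nat.card G := by
    rw [hn]
    exact Nat.ordProj_mul_ordCompl_eq_self n p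
  have hcop : Nat.Coprime p M := Nat.coprime_ordCompl hp.out hn0
  have hc : Nat.Coprime P M := Nat.Coprime.pow_left _ hcop
  -- elements of p-power order
  have hpel : ∀ u : G, (∃ k : ℕ, u ^ p ^ k = 1) ↔ u ^ P = 1 := by
    intro u
    constructor
    · rintro ⟨k, hk⟩
      rw [← orderOf_dvd_iff_pow_eq_one] at hk ⊢
      obtain ⟨j, hj, hj'⟩ := (Nat.dvd_prime_pow hp.out).1 hk
      rw [hj', hP]
      apply pow_dvd_pow
      have h1 : p ^ j ∣ n := by
        rw [← hj', ← hn]
        exact orderOf_dvd_natCard u
      exact (hp.out.pow_dvd_iff_le_factorization hn0).1 h1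
    · intro h
      exact ⟨_, h⟩
  have hcount : Nat.card {u : G // ∃ k : ℕ, u ^ p ^ k = 1} = Nat.card {u : G // u ^ P = 1} :=
    Nat.card_congr (Equiv.subtypeEquivRight hpel)
  rw [hcount]
  have hsum := card_eq_sum P M hPM hc
  set g : G → ℕ := fun y => if y ^ M = 1 then Nat.card {u : G // u ^ P = 1 ∧ Commute y u} else 0
    with hg
  have hsplit : ∑ y : G, g y = (∑ y : G, if y ∈ Subgroup.center G then g y else 0) +
      ∑ y : G, if y ∈ Subgroup.center G then 0 else g y := by
    rw [← Finset.sum_add_distrib]
    apply Finset.sum_congr rfl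
    intro y _
    split_ifs <;> simp
  -- noncentral part
  have hnc : P ∣ ∑ y : G, if y ∈ Subgroup.center G then 0 else g y := by
    apply dvd_sum_of_invariant (K := ConjAct G)
    · intro k x
      have hcen : k • x ∈ Subgroup.center G ↔ x ∈ Subgroup.center G := by
        rw [ConjAct.smul_def]
        constructor
        · intro h
          have h1 := (inferInstance : (Subgroup.center G).Normal).conj_mem _ h
            (ConjAct.ofConjAct k)⁻¹
          simpa [mul_assoc] using h1
        · intro h
          exact (inferInstance : (Subgroup.center G).Normal).conj_mem _ h _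
      have hg : g (k • x) = g x := by
        have h1 : (k • x) ^ M = 1 ↔ x ^ M = 1 := by
          rw [ConjAct.smul_def, conj_pow, conj_eq_one_iff]
        have h2 : Nat.card {u : G // u ^ P = 1 ∧ Commute (k • x) u} =
            Nat.card {u : G // u ^ P = 1 ∧ Commute x u} := by
          refine (Nat.card_congr (Equiv.subtypeEquiv (MulAut.conj (ConjAct.ofConjAct k)).toEquiv
            ?_)).symm
          intro u
          show _ ↔ ((ConjAct.ofConjAct k) * u * (ConjAct.ofConjAct k)⁻¹) ^ P = 1 ∧
            Commute (k • x) ((ConjAct.ofConjAct k) * u * (ConjAct.ofConjAct k)⁻¹)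
          rw [ConjAct.smul_def, conj_pow, conj_eq_one_iff, Commute.conj_iff]
        simp only [g, h1, h2]
      simp only [hcen, hg]
    · intro y
      by_cases hy : y ∈ Subgroup.center G
      · rw [if_pos hy, mul_zero]
        exact dvd_zero _
      rw [if_neg hy]
      by_cases hyM : y ^ M = 1
      swap
      · simp only [g]
        rw [if_neg hyM, mul_zero]
        exact dvd_zero _
      simp only [g]
      rw [if_pos hyM]
      set C := Subgroup.centralizer {y} with hC
      have horb : Nat.card (MulAction.orbit (ConjAct G) y) * Nat.card C = n := by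
        rw [hC, Subgroup.nat_card_centralizer_nat_card_stabilizer, Nat.card_coe_set_eq,
          ← MulAction.index_stabilizer, Subgroup.index_mul_card]
        exact hn
      have hClt : Nat.card C < n := by
        rw [← hn]
        refine lt_of_le_of_ne (Subgroup.card_le_card_group C) ?_
        intro h
        have h1 : C = ⊤ := Subgroup.eq_top_of_card_eq C h
        apply hy
        rw [Subgroup.mem_center_iff]
        intro z
        have h2 : z ∈ C := by rw [h1]; trivial
        rw [hC, Subgroup.mem_centralizer_singleton_iff] at h2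
        exact h2
      have hIH := ih _ hClt C rfl
      have hcard : Nat.card {u : C // ∃ k : ℕ, u ^ p ^ k = 1} =
          Nat.card {u : G // u ^ P = 1 ∧ Commute y u} := by
        refine Nat.card_congr ?_
        exact {
          toFun := fun u => ⟨u.1.1, by
            refine ⟨(hpel _).1 ?_, ?_⟩
            · obtain ⟨k, hk⟩ := u.2
              exact ⟨k, congrArg Subtype.val hk⟩
            · exact (Subgroup.mem_centralizer_singleton_iff.1 u.1.2).symm⟩
          invFun := fun u => ⟨⟨u.1, Subgroup.mem_centralizer_singleton_iff.2 u.2.2.symm⟩, by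
            obtain ⟨k, hk⟩ := (hpel _).2 u.2.1
            exact ⟨k, Subtype.ext hk⟩⟩
          left_inv := fun u => rfl
          right_inv := fun u => rfl }
      rw [hcard] at hIH
      have h3 : P = ordProj[p] (Nat.card (MulAction.orbit (ConjAct G) y)) *
          ordProj[p] (Nat.card C) := by
        rw [hP, ← horb]
        have h4 : Nat.card (MulAction.orbit (ConjAct G) y) ≠ 0 := by
          intro h
          rw [h, zero_mul] at horb
          exact hn0 horb.symm
        exact Nat.ordProj_mul p h4 Nat.card_pos.ne'
      have h6 := Nat.mul_dvd_mul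
        (Nat.ordProj_dvd (Nat.card (MulAction.orbit (ConjAct G) y)) p) hIH
      rw [← h3] at h6
      exact h6
  -- central part
  have hcen : (∑ y : G, if y ∈ Subgroup.center G then g y else 0) =
      Nat.card {y : G // y ∈ Subgroup.center G ∧ y ^ M = 1} * Nat.card {u : G // u ^ P = 1} := by
    rw [Nat.card_eq_fintype_card, Fintype.card_subtype, Finset.card_filter, Finset.sum_mul]
    apply Finset.sum_congr rfl
    intro y _
    by_cases hy : y ∈ Subgroup.center G
    · by_cases hyM : y ^ M = 1
      · simp only [g, hy, hyM, if_true, and_self, one_mul]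
        apply Nat.card_congr
        apply Equiv.subtypeEquivRight
        intro u
        constructor
        · rintro ⟨h, -⟩
          exact h
        · intro h
          exact ⟨h, ((Subgroup.mem_center_iff.1 hy) u).symm⟩
      · simp [g, hy, hyM]
    · simp [g, hy]
  have hz : Nat.Coprime P (Nat.card {y : G // y ∈ Subgroup.center G ∧ y ^ M = 1}) := by
    let Z : Subgroup G :=
      { carrier := {y | y ∈ Subgroup.center G ∧ y ^ M = 1}
        one_mem' := ⟨one_mem _, one_pow _⟩
        mul_mem' := by
          rintro a b ⟨ha, ha'⟩ ⟨hb, hb'⟩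
          refine ⟨mul_mem ha hb, ?_⟩
          have hc : Commute a b := ((Subgroup.mem_center_iff.1 hb) a)
          rw [hc.mul_pow, ha', hb', one_mul]
        inv_mem' := by
          rintro a ⟨ha, ha'⟩
          exact ⟨inv_mem ha, by rw [inv_pow, ha', inv_one]⟩ }
    have hZ : Nat.card {y : G // y ∈ Subgroup.center G ∧ y ^ M = 1} = Nat.card Z := rfl
    rw [hZ]
    apply Nat.Coprime.pow_left
    rw [hp.out.coprime_iff_not_dvd]
    intro h
    obtain ⟨z, hz⟩ := exists_prime_orderOf_dvd_card' p h
    have h1 : (z : G) ^ M = 1 := z.2.2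
    have h2 : orderOf (z : G) = p := by rw [Subgroup.orderOf_coe]; exact hz
    have h3 : p ∣ M := by rw [← h2]; exact orderOf_dvd_of_pow_eq_one h1
    have h4 : p = 1 := by
      have := Nat.Coprime.eq_one_of_dvd hcop h3
      exact this
    exact hp.out.one_lt.ne' h4
  have hPn : P ∣ Nat.card G := ⟨M, hPM.symm⟩
  rw [hsum, hsplit, hcen] at hPn
  have h5 := (Nat.dvd_add_left hnc).1 hPn
  exact hz.dvd_of_dvd_mul_left h5

end Pool.Agent.V1134.Frob
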