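import Pool.Agent.V1134.RSeq

/-!
# Harmonious listings of groups `Z_N ⋊ Z_2` given by explicit index functions
-/

namespace Pool.Agent.V1134.Harm

open Pool.Agent.V1134.RSeq

/-- A finite group `G` is harmonious if its elements can be listed cyclically (indices in
`ZMod |G|`), each exactly once, so that the products of cyclically consecutive elements also
run through every element exactly once. -/
def Harmonious (G : Type*) [Group G] : Prop :=
  ∃ x : ZMod (Nat.card G) → G, Function.Bijective x ∧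
    Function.Bijective (fun i => x i * x (i + 1))

theorem Harmonious.of_mulEquiv {G H : Type*} [Group G] [Group H] (e : G ≃* H)
    (h : Harmonious G) : Harmonious H := by
  obtain ⟨x, hx, hq⟩ := h
  have hc : Nat.card H = Nat.card G := (Nat.card_congr e.toEquiv).symm
  unfold Harmonious
  rw [hc]
  refine ⟨fun i => e (x i), e.bijective.comp hx, ?_⟩
  have : (fun i => e (x i) * e (x (i + 1))) = e ∘ (fun i => x i * x (i + 1)) := by
    funext i; simp
  rw [this]
  exact e.bijective.comp hq

/-- The product index: `v` times `w` in `Z_N ⋊ Z_2`, first coordinate, on integers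
(`ρ` is the action of the generator of `Z_2`). -/
def pr (ρ : ℤ → ℤ) (v : ℤ) (c : ℕ) (w : ℤ) : ℤ := if c = 1 then v + ρ w else v + w

/-- The criterion: integer index functions give a harmonious listing of `Tw N r`. -/
theorem harm_tw (N : ℕ) (hN : 1 ≤ N) (r : ZMod N) (hr : r * r = 1) (ρ : ℤ → ℤ)
    (hρ : ∀ v : ℤ, ((ρ v : ℤ) : ZMod N) = r * (v : ZMod N))
    (V : ℕ → ℤ) (C : ℕ → ℕ) (Q : ℕ → ℤ) (D : ℕ → ℕ)
    (hC : ∀ s, s ≤ N * 2 → C s ≤ 1)
    (hV0 : V (N * 2) = V 0) (hC0 : C (N * 2) = C 0)
    (hQ : ∀ s, s < N * 2 → (N : ℤ) ∣ pr ρ (V s) (C s) (V (s + 1)) - Q s)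
    (hD : ∀ s, s < N * 2 → D s = (C s + C (s + 1)) % 2)
    (hinj : ∀ s t, s < N * 2 → t < N * 2 → (N : ℤ) ∣ V s - V t → C s = C t → s = t)
    (hqinj : ∀ s t, s < N * 2 → t < N * 2 → (N : ℤ) ∣ Q s - Q t → D s = D t → s = t) :
    letI := Tw.group N r hr
    Harmonious (Tw N r) := by
  let _ := Tw.group N r hr
  have hN' : NeZero N := ⟨by omega⟩
  have hcard : Nat.card (Tw N r) = N * 2 := card_tw N r
  have hfin : Finite (Tw N r) := by
    apply Nat.finite_of_card_ne_zero; rw [hcard]; omega
  have hM : NeZero (N * 2) := ⟨by omega⟩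
  have hM1 : Fact (1 < N * 2) := ⟨by omega⟩
  unfold Harmonious
  rw [hcard]
  have hval : ∀ i : ZMod (N * 2), i.val < N * 2 := fun i => ZMod.val_lt i
  let g : ℕ → Tw N r := fun s => ⟨(V s : ZMod N), decide (C s = 1)⟩
  have hwrap : ∀ i : ZMod (N * 2), g (i + 1).val = g (i.val + 1) := by
    intro i
    have hv := hval i
    by_cases hlt : i.val + 1 < N * 2
    · have : (i + 1).val = i.val + 1 := by
        rw [ZMod.val_add, ZMod.val_one, Nat.mod_eq_of_lt hlt]
      rw [this]
    · have h2 : i.val + 1 = N * 2 := by omega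
      have : (i + 1).val = 0 := by
        rw [ZMod.val_add, ZMod.val_one, h2, Nat.mod_self]
      rw [this, h2]
      show (⟨(V 0 : ZMod N), decide (C 0 = 1)⟩ : Tw N r) = ⟨(V (N * 2) : ZMod N), decide (C (N * 2) = 1)⟩
      rw [hV0, hC0]
  have hdec : ∀ a b : ℕ, a ≤ 1 → b ≤ 1 → decide (a = 1) = decide (b = 1) → a = b := by
    intro a b ha hb h
    rw [decide_eq_decide] at h; omega
  have hxor : ∀ a b : ℕ, a ≤ 1 → b ≤ 1 →
      xor (decide (a = 1)) (decide (b = 1)) = decide ((a + b) % 2 = 1) := by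
    intro a b ha hb
    interval_cases a <;> interval_cases b <;> rfl
  have hcastV : ∀ a b : ℤ, (a : ZMod N) = b → (N : ℤ) ∣ a - b := by
    intro a b h
    rw [ZMod.intCast_eq_intCast_iff_dvd_sub] at h
    have := (dvd_neg (a := (N : ℤ))).mpr h
    rwa [neg_sub] at this
  have hprod : ∀ s, s < N * 2 → g s * g (s + 1) = ⟨(Q s : ZMod N), decide (D s = 1)⟩ := by
    intro s hs
    apply Tw.ext'
    · show (V s : ZMod N) + (if decide (C s = 1) = true then r * (V (s + 1) : ZMod N)
        else (V (s + 1) : ZMod N)) = (Q s : ZMod N)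
      have h1 := hQ s hs
      have h2 : ((pr ρ (V s) (C s) (V (s + 1)) : ℤ) : ZMod N) = (Q s : ZMod N) := by
        rw [ZMod.intCast_eq_intCast_iff_dvd_sub]
        have := (dvd_neg (a := (N : ℤ))).mpr h1
        rwa [neg_sub] at this
      rw [← h2]
      unfold pr
      by_cases hc : C s = 1
      · simp [hc, hρ]
      · simp [hc]
    · show xor (decide (C s = 1)) (decide (C (s + 1) = 1)) = decide (D s = 1)
      rw [hxor _ _ (hC s (by omega)) (hC (s + 1) (by omega)), hD s hs]
  have hcard' : Nat.card (ZMod (N * 2)) = Nat.card (Tw N r) := by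
    rw [Nat.card_zmod, hcard]
  refine ⟨fun i => g i.val, ?_, ?_⟩
  · rw [Nat.bijective_iff_injective_and_card]
    refine ⟨?_, hcard'⟩
    intro i j hij
    have h1 : (V i.val : ZMod N) = V j.val := congrArg Tw.i hij
    have h2 : decide (C i.val = 1) = decide (C j.val = 1) := congrArg Tw.c hij
    exact ZMod.val_injective _ (hinj _ _ (hval i) (hval j) (hcastV _ _ h1)
      (hdec _ _ (hC _ (hval i).le) (hC _ (hval j).le) h2))
  · rw [Nat.bijective_iff_injective_and_card]
    refine ⟨?_, hcard'⟩
    intro i j hij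
    have hij' : g i.val * g (i.val + 1) = g j.val * g (j.val + 1) := by
      have := hij
      simp only [hwrap] at this
      exact this
    rw [hprod _ (hval i), hprod _ (hval j)] at hij'
    have h1 : (Q i.val : ZMod N) = Q j.val := congrArg Tw.i hij'
    have h2 : decide (D i.val = 1) = decide (D j.val = 1) := congrArg Tw.c hij'
    have hDle : ∀ s, s < N * 2 → D s ≤ 1 := by
      intro s hs; rw [hD s hs]; omega
    exact ZMod.val_injective _ (hqinj _ _ (hval i) (hval j) (hcastV _ _ h1)
      (hdec _ _ (hDle _ (hval i)) (hDle _ (hval j)) h2))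

/-- A multiple of `M` strictly between `-2M` and `2M` is `0` or `± M`. -/
theorem dvd_small (M : ℤ) (hM : 0 < M) (d : ℤ) (h : M ∣ d) (h1 : -(2 * M) < d) (h2 : d < 2 * M) :
    d = 0 ∨ d = M ∨ d = -M := by
  obtain ⟨e, rfl⟩ := h
  have he1 : -2 < e := by nlinarith
  have he2 : e < 2 := by nlinarith
  interval_cases e
  · right; right; ring
  · left; ring
  · right; left; ring

end Pool.Agent.V1134.Harm
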