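import Pool.Agent.V1134.Harm

/-!
# `SD_{2^n}` is harmonious for every `n ≥ 4`: the index functions
-/

namespace Pool.Agent.V1134.HarmSD

open Pool.Agent.V1134.RSeq Pool.Agent.V1134.Harm

/-- Exponents of `a` (listing), first block. -/
def V1 (n t : ℤ) : ℕ → ℤ
  | 0 => 2 * t + 1
  | 1 => 2 * t + 4 * (n + 1) + 2
  | 2 => 2 * t + 2 * (n + 1) + 1
  | 3 => (-2) * t + 2 * (n + 1) + (-1)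
  | 4 => 2 * t + 2 * (n + 1) + 1
  | 5 => 2 * t + 6 * (n + 1) + 2
  | 6 => 2 * t + 2 * (n + 1) + 2
  | _ => (-2) * t + 2 * (n + 1) + (-2)

/-- Exponents of `a` (listing), second block. -/
def V2 (n : ℤ) : ℕ → ℤ
  | 0 => 2 * (n + 1) + (-1)
  | 1 => 4 * (n + 1) + 0
  | 2 => (-1)
  | _ => 4 * (n + 1) + 1

/-- Exponents of `a` (listing), third block. -/
def V3 (n t : ℤ) : ℕ → ℤ
  | 0 => (-2) * t + (-1)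
  | 1 => (-2) * t + (-4) * (n + 1) + (-2)
  | 2 => (-2) * t + (-2) * (n + 1) + (-1)
  | 3 => 2 * t + (-2) * (n + 1) + 1
  | 4 => (-2) * t + (-2) * (n + 1) + (-1)
  | 5 => (-2) * t + (-6) * (n + 1) + (-2)
  | 6 => (-2) * t + (-2) * (n + 1) + (-2)
  | _ => 2 * t + (-2) * (n + 1) + 2

/-- Exponents of `a` (listing), fourth block. -/
def V4 (n : ℤ) : ℕ → ℤ
  | 0 => (-2) * (n + 1) + 1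
  | 1 => 6 * (n + 1) + 0
  | 2 => 2 * (n + 1) + 0
  | 3 => 2 * (n + 1) + 0
  | 4 => 4 * (n + 1) + 1
  | 5 => 6 * (n + 1) + 0
  | 6 => 4 * (n + 1) + (-1)
  | 7 => 4 * (n + 1) + 0
  | 8 => 0
  | 9 => 0
  | 10 => 1
  | 11 => 4 * (n + 1) + (-1)
  | _ => 1

/-- Exponents of `b` (listing), first block. -/
def C1  : ℕ → ℕ
  | 0 => 0
  | 1 => 0
  | 2 => 1
  | 3 => 1
  | 4 => 0
  | 5 => 0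
  | 6 => 1
  | _ => 1

/-- Exponents of `b` (listing), second block. -/
def C2  : ℕ → ℕ
  | 0 => 0
  | 1 => 1
  | 2 => 1
  | _ => 1

/-- Exponents of `b` (listing), third block. -/
def C3  : ℕ → ℕ
  | 0 => 0
  | 1 => 0
  | 2 => 1
  | 3 => 1
  | 4 => 0
  | 5 => 0
  | 6 => 1
  | _ => 1

/-- Exponents of `b` (listing), fourth block. -/
def C4  : ℕ → ℕ
  | 0 => 0
  | 1 => 0
  | 2 => 0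
  | 3 => 1
  | 4 => 0
  | 5 => 1
  | 6 => 0
  | 7 => 0
  | 8 => 0
  | 9 => 1
  | 10 => 1
  | 11 => 1
  | _ => 0

/-- Exponents of `a` (listing), as integers modulo `8 (n + 1)`. -/
def V (n s : ℕ) : ℤ :=
  if s < 8 * n then V1 n (s / 8 : ℕ) (s % 8)
  else if s < 8 * n + 4 then V2 n (s - 8 * n)
  else if s < 16 * n + 4 then V3 n ((s - (8 * n + 4)) / 8 : ℕ) ((s - (8 * n + 4)) % 8)
  else V4 n (s - (16 * n + 4))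

/-- Exponents of `b` (listing). -/
def C (n s : ℕ) : ℕ :=
  if s < 8 * n then C1 (s % 8)
  else if s < 8 * n + 4 then C2 (s - 8 * n)
  else if s < 16 * n + 4 then C3 ((s - (8 * n + 4)) % 8)
  else C4 (s - (16 * n + 4))

theorem V_1 (n t j : ℕ) (ht : t < n) (hj : j < 8) : V n (8 * t + j) = V1 n t j ∧ C n (8 * t + j) = C1 j := by
  have h1 : 8 * t + j < 8 * n := by omega
  have h2 : (8 * t + j) / 8 = t := by omega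
  have h3 : (8 * t + j) % 8 = j := by omega
  unfold V C
  rw [if_pos h1, if_pos h1, h2, h3]
  exact ⟨rfl, rfl⟩

theorem V_2 (n j : ℕ) (hj : j < 4) : V n (8 * n + j) = V2 n j ∧ C n (8 * n + j) = C2 j := by
  have h1 : ¬ 8 * n + j < 8 * n := by omega
  have h2 : 8 * n + j < 8 * n + 4 := by omega
  have h3 : 8 * n + j - 8 * n = j := by omega
  unfold V C
  rw [if_neg h1, if_neg h1, if_pos h2, if_pos h2, h3]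
  exact ⟨rfl, rfl⟩

theorem V_3 (n t j : ℕ) (ht : t < n) (hj : j < 8) :
    V n (8 * n + 4 + 8 * t + j) = V3 n t j ∧ C n (8 * n + 4 + 8 * t + j) = C3 j := by
  have h1 : ¬ 8 * n + 4 + 8 * t + j < 8 * n := by omega
  have h2 : ¬ 8 * n + 4 + 8 * t + j < 8 * n + 4 := by omega
  have h3 : 8 * n + 4 + 8 * t + j < 16 * n + 4 := by omega
  have h4 : (8 * n + 4 + 8 * t + j - (8 * n + 4)) / 8 = t := by omega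
  have h5 : (8 * n + 4 + 8 * t + j - (8 * n + 4)) % 8 = j := by omega
  unfold V C
  rw [if_neg h1, if_neg h1, if_neg h2, if_neg h2, if_pos h3, if_pos h3, h4, h5]
  exact ⟨rfl, rfl⟩

theorem V_4 (n j : ℕ) : V n (16 * n + 4 + j) = V4 n j ∧ C n (16 * n + 4 + j) = C4 j := by
  have h1 : ¬ 16 * n + 4 + j < 8 * n := by omega
  have h2 : ¬ 16 * n + 4 + j < 8 * n + 4 := by omega
  have h3 : ¬ 16 * n + 4 + j < 16 * n + 4 := by omega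
  have h4 : 16 * n + 4 + j - (16 * n + 4) = j := by omega
  unfold V C
  rw [if_neg h1, if_neg h1, if_neg h2, if_neg h2, if_neg h3, if_neg h3, h4]
  exact ⟨rfl, rfl⟩

/-- Exponents of `a` (products), first block. -/
def Q1 (n t : ℤ) : ℕ → ℤ
  | 0 => 4 * t + (-4) * (n + 1) + 3
  | 1 => 4 * t + (-2) * (n + 1) + 3
  | 2 => 4 * t + (-4) * (n + 1) + 2
  | 3 => (-4) * t + 4 * (n + 1) + (-2)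
  | 4 => 4 * t + 3
  | 5 => 4 * t + 4
  | 6 => 4 * t + 4
  | _ => (-4) * t + 6 * (n + 1) + (-5)

/-- Exponents of `a` (products), second block. -/
def Q2 (n : ℤ) : ℕ → ℤ
  | 0 => (-2) * (n + 1) + (-1)
  | 1 => 1
  | 2 => (-2)
  | _ => 2

/-- Exponents of `a` (products), third block. -/
def Q3 (n t : ℤ) : ℕ → ℤ
  | 0 => (-4) * t + 4 * (n + 1) + (-3)
  | 1 => (-4) * t + 2 * (n + 1) + (-3)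
  | 2 => (-4) * t + 4 * (n + 1) + (-2)
  | 3 => 4 * t + (-4) * (n + 1) + 2
  | 4 => (-4) * t + (-3)
  | 5 => (-4) * t + (-4)
  | 6 => (-4) * t + (-4)
  | _ => 4 * t + 2 * (n + 1) + 5

/-- Exponents of `a` (products), fourth block. -/
def Q4 (n : ℤ) : ℕ → ℤ
  | 0 => 4 * (n + 1) + 1
  | 1 => 0
  | 2 => 4 * (n + 1) + 0
  | 3 => 2 * (n + 1) + (-1)
  | 4 => 2 * (n + 1) + 1
  | 5 => (-2) * (n + 1) + 1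
  | 6 => (-1)
  | 7 => 4 * (n + 1) + 0
  | 8 => 0
  | 9 => 4 * (n + 1) + (-1)
  | 10 => 2
  | _ => (-2)

/-- Exponents of `b` (products), first block. -/
def D1  : ℕ → ℕ
  | 0 => 0
  | 1 => 1
  | 2 => 0
  | 3 => 1
  | 4 => 0
  | 5 => 1
  | 6 => 0
  | _ => 1

/-- Exponents of `b` (products), second block. -/
def D2  : ℕ → ℕ
  | 0 => 1
  | 1 => 0
  | 2 => 0
  | _ => 1

/-- Exponents of `b` (products), third block. -/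
def D3  : ℕ → ℕ
  | 0 => 0
  | 1 => 1
  | 2 => 0
  | 3 => 1
  | 4 => 0
  | 5 => 1
  | 6 => 0
  | _ => 1

/-- Exponents of `b` (products), fourth block. -/
def D4  : ℕ → ℕ
  | 0 => 0
  | 1 => 0
  | 2 => 1
  | 3 => 1
  | 4 => 1
  | 5 => 1
  | 6 => 0
  | 7 => 0
  | 8 => 1
  | 9 => 0
  | 10 => 0
  | _ => 1

/-- Exponents of `a` (products), as integers modulo `8 (n + 1)`. -/
def Q (n s : ℕ) : ℤ :=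
  if s < 8 * n then Q1 n (s / 8 : ℕ) (s % 8)
  else if s < 8 * n + 4 then Q2 n (s - 8 * n)
  else if s < 16 * n + 4 then Q3 n ((s - (8 * n + 4)) / 8 : ℕ) ((s - (8 * n + 4)) % 8)
  else Q4 n (s - (16 * n + 4))

/-- Exponents of `b` (products). -/
def D (n s : ℕ) : ℕ :=
  if s < 8 * n then D1 (s % 8)
  else if s < 8 * n + 4 then D2 (s - 8 * n)
  else if s < 16 * n + 4 then D3 ((s - (8 * n + 4)) % 8)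
  else D4 (s - (16 * n + 4))

theorem Q_1 (n t j : ℕ) (ht : t < n) (hj : j < 8) : Q n (8 * t + j) = Q1 n t j ∧ D n (8 * t + j) = D1 j := by
  have h1 : 8 * t + j < 8 * n := by omega
  have h2 : (8 * t + j) / 8 = t := by omega
  have h3 : (8 * t + j) % 8 = j := by omega
  unfold Q D
  rw [if_pos h1, if_pos h1, h2, h3]
  exact ⟨rfl, rfl⟩

theorem Q_2 (n j : ℕ) (hj : j < 4) : Q n (8 * n + j) = Q2 n j ∧ D n (8 * n + j) = D2 j := by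
  have h1 : ¬ 8 * n + j < 8 * n := by omega
  have h2 : 8 * n + j < 8 * n + 4 := by omega
  have h3 : 8 * n + j - 8 * n = j := by omega
  unfold Q D
  rw [if_neg h1, if_neg h1, if_pos h2, if_pos h2, h3]
  exact ⟨rfl, rfl⟩

theorem Q_3 (n t j : ℕ) (ht : t < n) (hj : j < 8) :
    Q n (8 * n + 4 + 8 * t + j) = Q3 n t j ∧ D n (8 * n + 4 + 8 * t + j) = D3 j := by
  have h1 : ¬ 8 * n + 4 + 8 * t + j < 8 * n := by omega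
  have h2 : ¬ 8 * n + 4 + 8 * t + j < 8 * n + 4 := by omega
  have h3 : 8 * n + 4 + 8 * t + j < 16 * n + 4 := by omega
  have h4 : (8 * n + 4 + 8 * t + j - (8 * n + 4)) / 8 = t := by omega
  have h5 : (8 * n + 4 + 8 * t + j - (8 * n + 4)) % 8 = j := by omega
  unfold Q D
  rw [if_neg h1, if_neg h1, if_neg h2, if_neg h2, if_pos h3, if_pos h3, h4, h5]
  exact ⟨rfl, rfl⟩

theorem Q_4 (n j : ℕ) : Q n (16 * n + 4 + j) = Q4 n j ∧ D n (16 * n + 4 + j) = D4 j := by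
  have h1 : ¬ 16 * n + 4 + j < 8 * n := by omega
  have h2 : ¬ 16 * n + 4 + j < 8 * n + 4 := by omega
  have h3 : ¬ 16 * n + 4 + j < 16 * n + 4 := by omega
  have h4 : 16 * n + 4 + j - (16 * n + 4) = j := by omega
  unfold Q D
  rw [if_neg h1, if_neg h1, if_neg h2, if_neg h2, if_neg h3, if_neg h3, h4]
  exact ⟨rfl, rfl⟩

/-- The action of `b` on exponents: multiplication by `4 (n + 1) - 1` modulo `8 (n + 1)`. -/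
def ρ (n : ℕ) (v : ℤ) : ℤ := if v % 2 = 0 then -v else -v + 4 * ((n : ℤ) + 1)

theorem pos_cases (n s : ℕ) (hs : s < 16 * n + 16) :
    (∃ t j, t < n ∧ j < 8 ∧ s = 8 * t + j) ∨ (∃ j, j < 4 ∧ s = 8 * n + j) ∨
    (∃ t j, t < n ∧ j < 8 ∧ s = 8 * n + 4 + 8 * t + j) ∨ (∃ j, j < 12 ∧ s = 16 * n + 4 + j) := by
  by_cases h1 : s < 8 * n
  · exact Or.inl ⟨s / 8, s % 8, by omega, by omega, by omega⟩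
  by_cases h2 : s < 8 * n + 4
  · exact Or.inr (Or.inl ⟨s - 8 * n, by omega, by omega⟩)
  by_cases h3 : s < 16 * n + 4
  · exact Or.inr (Or.inr (Or.inl ⟨(s - (8 * n + 4)) / 8, (s - (8 * n + 4)) % 8, by omega, by omega,
      by omega⟩))
  · exact Or.inr (Or.inr (Or.inr ⟨s - (16 * n + 4), by omega, by omega⟩))

/-- The value set of `V` on the coset `0`. -/
def VP0 (n : ℤ) (s : ℤ) (v : ℤ) : Prop :=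
  (∃ t : ℤ, 0 ≤ t ∧ t < n ∧ (s : ℤ) = 8 * t + 0 ∧ v = 2 * t + 1) ∨
  (∃ t : ℤ, 0 ≤ t ∧ t < n ∧ (s : ℤ) = 8 * t + 1 ∧ v = 2 * t + 4 * (n + 1) + 2) ∨
  (∃ t : ℤ, 0 ≤ t ∧ t < n ∧ (s : ℤ) = 8 * t + 4 ∧ v = 2 * t + 2 * (n + 1) + 1) ∨
  (∃ t : ℤ, 0 ≤ t ∧ t < n ∧ (s : ℤ) = 8 * t + 5 ∧ v = 2 * t + 6 * (n + 1) + 2) ∨
  ((s : ℤ) = 8 * n + 0 ∧ v = 2 * (n + 1) + (-1)) ∨
  (∃ t : ℤ, 0 ≤ t ∧ t < n ∧ (s : ℤ) = 8 * n + 4 + 8 * t + 0 ∧ v = (-2) * t + (-1)) ∨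
  (∃ t : ℤ, 0 ≤ t ∧ t < n ∧ (s : ℤ) = 8 * n + 4 + 8 * t + 1 ∧ v = (-2) * t + (-4) * (n + 1) + (-2)) ∨
  (∃ t : ℤ, 0 ≤ t ∧ t < n ∧ (s : ℤ) = 8 * n + 4 + 8 * t + 4 ∧ v = (-2) * t + (-2) * (n + 1) + (-1)) ∨
  (∃ t : ℤ, 0 ≤ t ∧ t < n ∧ (s : ℤ) = 8 * n + 4 + 8 * t + 5 ∧ v = (-2) * t + (-6) * (n + 1) + (-2)) ∨
  ((s : ℤ) = 16 * n + 4 + 0 ∧ v = (-2) * (n + 1) + 1) ∨
  ((s : ℤ) = 16 * n + 4 + 1 ∧ v = 6 * (n + 1) + 0) ∨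
  ((s : ℤ) = 16 * n + 4 + 2 ∧ v = 2 * (n + 1) + 0) ∨
  ((s : ℤ) = 16 * n + 4 + 4 ∧ v = 4 * (n + 1) + 1) ∨
  ((s : ℤ) = 16 * n + 4 + 6 ∧ v = 4 * (n + 1) + (-1)) ∨
  ((s : ℤ) = 16 * n + 4 + 7 ∧ v = 4 * (n + 1) + 0) ∨
  ((s : ℤ) = 16 * n + 4 + 8 ∧ v = 0)

/-- The value set of `V` on the coset `1`. -/
def VP1 (n : ℤ) (s : ℤ) (v : ℤ) : Prop :=
  (∃ t : ℤ, 0 ≤ t ∧ t < n ∧ (s : ℤ) = 8 * t + 2 ∧ v = 2 * t + 2 * (n + 1) + 1) ∨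
  (∃ t : ℤ, 0 ≤ t ∧ t < n ∧ (s : ℤ) = 8 * t + 3 ∧ v = (-2) * t + 2 * (n + 1) + (-1)) ∨
  (∃ t : ℤ, 0 ≤ t ∧ t < n ∧ (s : ℤ) = 8 * t + 6 ∧ v = 2 * t + 2 * (n + 1) + 2) ∨
  (∃ t : ℤ, 0 ≤ t ∧ t < n ∧ (s : ℤ) = 8 * t + 7 ∧ v = (-2) * t + 2 * (n + 1) + (-2)) ∨
  ((s : ℤ) = 8 * n + 1 ∧ v = 4 * (n + 1) + 0) ∨
  ((s : ℤ) = 8 * n + 2 ∧ v = (-1)) ∨
  ((s : ℤ) = 8 * n + 3 ∧ v = 4 * (n + 1) + 1) ∨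
  (∃ t : ℤ, 0 ≤ t ∧ t < n ∧ (s : ℤ) = 8 * n + 4 + 8 * t + 2 ∧ v = (-2) * t + (-2) * (n + 1) + (-1)) ∨
  (∃ t : ℤ, 0 ≤ t ∧ t < n ∧ (s : ℤ) = 8 * n + 4 + 8 * t + 3 ∧ v = 2 * t + (-2) * (n + 1) + 1) ∨
  (∃ t : ℤ, 0 ≤ t ∧ t < n ∧ (s : ℤ) = 8 * n + 4 + 8 * t + 6 ∧ v = (-2) * t + (-2) * (n + 1) + (-2)) ∨
  (∃ t : ℤ, 0 ≤ t ∧ t < n ∧ (s : ℤ) = 8 * n + 4 + 8 * t + 7 ∧ v = 2 * t + (-2) * (n + 1) + 2) ∨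
  ((s : ℤ) = 16 * n + 4 + 3 ∧ v = 2 * (n + 1) + 0) ∨
  ((s : ℤ) = 16 * n + 4 + 5 ∧ v = 6 * (n + 1) + 0) ∨
  ((s : ℤ) = 16 * n + 4 + 9 ∧ v = 0) ∨
  ((s : ℤ) = 16 * n + 4 + 10 ∧ v = 1) ∨
  ((s : ℤ) = 16 * n + 4 + 11 ∧ v = 4 * (n + 1) + (-1))

theorem V_spec (n s : ℕ) (hs : s < 16 * n + 16) :
    (C n s = 0 ∧ VP0 n s (V n s)) ∨ (C n s = 1 ∧ VP1 n s (V n s)) := by
  rcases pos_cases n s hs with ⟨t, j, ht, hj, rfl⟩ | ⟨j, hj, rfl⟩ | ⟨t, j, ht, hj, rfl⟩ | ⟨j, hj, rfl⟩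
  · obtain ⟨h1, h2⟩ := V_1 n t j ht hj
    rw [h1, h2]
    clear h1 h2
    interval_cases j
    · exact Or.inl ⟨rfl, (Or.inl ⟨t, by omega, by omega, by push_cast; rfl, rfl⟩)⟩
    · exact Or.inl ⟨rfl, (Or.inr (Or.inl ⟨t, by omega, by omega, by push_cast; rfl, rfl⟩))⟩
    · exact Or.inr ⟨rfl, (Or.inl ⟨t, by omega, by omega, by push_cast; rfl, rfl⟩)⟩
    · exact Or.inr ⟨rfl, (Or.inr (Or.inl ⟨t, by omega, by omega, by push_cast; rfl, rfl⟩))⟩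
    · exact Or.inl ⟨rfl, (Or.inr (Or.inr (Or.inl ⟨t, by omega, by omega, by push_cast; rfl, rfl⟩)))⟩
    · exact Or.inl ⟨rfl, (Or.inr (Or.inr (Or.inr (Or.inl ⟨t, by omega, by omega, by push_cast; rfl, rfl⟩))))⟩
    · exact Or.inr ⟨rfl, (Or.inr (Or.inr (Or.inl ⟨t, by omega, by omega, by push_cast; rfl, rfl⟩)))⟩
    · exact Or.inr ⟨rfl, (Or.inr (Or.inr (Or.inr (Or.inl ⟨t, by omega, by omega, by push_cast; rfl, rfl⟩))))⟩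
  · obtain ⟨h1, h2⟩ := V_2 n j hj
    rw [h1, h2]
    clear h1 h2
    interval_cases j
    · exact Or.inl ⟨rfl, (Or.inr (Or.inr (Or.inr (Or.inr (Or.inl ⟨by push_cast; rfl, rfl⟩)))))⟩
    · exact Or.inr ⟨rfl, (Or.inr (Or.inr (Or.inr (Or.inr (Or.inl ⟨by push_cast; rfl, rfl⟩)))))⟩
    · exact Or.inr ⟨rfl, (Or.inr (Or.inr (Or.inr (Or.inr (Or.inr (Or.inl ⟨by push_cast; rfl, rfl⟩))))))⟩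
    · exact Or.inr ⟨rfl, (Or.inr (Or.inr (Or.inr (Or.inr (Or.inr (Or.inr (Or.inl ⟨by push_cast; rfl, rfl⟩)))))))⟩
  · obtain ⟨h1, h2⟩ := V_3 n t j ht hj
    rw [h1, h2]
    clear h1 h2
    interval_cases j
    · exact Or.inl ⟨rfl, (Or.inr (Or.inr (Or.inr (Or.inr (Or.inr (Or.inl ⟨t, by omega, by omega, by push_cast; rfl, rfl⟩))))))⟩
    · exact Or.inl ⟨rfl, (Or.inr (Or.inr (Or.inr (Or.inr (Or.inr (Or.inr (Or.inl ⟨t, by omega, by omega, by push_cast; rfl, rfl⟩)))))))⟩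
    · exact Or.inr ⟨rfl, (Or.inr (Or.inr (Or.inr (Or.inr (Or.inr (Or.inr (Or.inr (Or.inl ⟨t, by omega, by omega, by push_cast; rfl, rfl⟩))))))))⟩
    · exact Or.inr ⟨rfl, (Or.inr (Or.inr (Or.inr (Or.inr (Or.inr (Or.inr (Or.inr (Or.inr (Or.inl ⟨t, by omega, by omega, by push_cast; rfl, rfl⟩)))))))))⟩
    · exact Or.inl ⟨rfl, (Or.inr (Or.inr (Or.inr (Or.inr (Or.inr (Or.inr (Or.inr (Or.inl ⟨t, by omega, by omega, by push_cast; rfl, rfl⟩))))))))⟩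
    · exact Or.inl ⟨rfl, (Or.inr (Or.inr (Or.inr (Or.inr (Or.inr (Or.inr (Or.inr (Or.inr (Or.inl ⟨t, by omega, by omega, by push_cast; rfl, rfl⟩)))))))))⟩
    · exact Or.inr ⟨rfl, (Or.inr (Or.inr (Or.inr (Or.inr (Or.inr (Or.inr (Or.inr (Or.inr (Or.inr (Or.inl ⟨t, by omega, by omega, by push_cast; rfl, rfl⟩))))))))))⟩
    · exact Or.inr ⟨rfl, (Or.inr (Or.inr (Or.inr (Or.inr (Or.inr (Or.inr (Or.inr (Or.inr (Or.inr (Or.inr (Or.inl ⟨t, by omega, by omega, by push_cast; rfl, rfl⟩)))))))))))⟩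
  · obtain ⟨h1, h2⟩ := V_4 n j
    rw [h1, h2]
    clear h1 h2
    interval_cases j
    · exact Or.inl ⟨rfl, (Or.inr (Or.inr (Or.inr (Or.inr (Or.inr (Or.inr (Or.inr (Or.inr (Or.inr (Or.inl ⟨by push_cast; rfl, rfl⟩))))))))))⟩
    · exact Or.inl ⟨rfl, (Or.inr (Or.inr (Or.inr (Or.inr (Or.inr (Or.inr (Or.inr (Or.inr (Or.inr (Or.inr (Or.inl ⟨by push_cast; rfl, rfl⟩)))))))))))⟩
    · exact Or.inl ⟨rfl, (Or.inr (Or.inr (Or.inr (Or.inr (Or.inr (Or.inr (Or.inr (Or.inr (Or.inr (Or.inr (Or.inr (Or.inl ⟨by push_cast; rfl, rfl⟩))))))))))))⟩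
    · exact Or.inr ⟨rfl, (Or.inr (Or.inr (Or.inr (Or.inr (Or.inr (Or.inr (Or.inr (Or.inr (Or.inr (Or.inr (Or.inr (Or.inl ⟨by push_cast; rfl, rfl⟩))))))))))))⟩
    · exact Or.inl ⟨rfl, (Or.inr (Or.inr (Or.inr (Or.inr (Or.inr (Or.inr (Or.inr (Or.inr (Or.inr (Or.inr (Or.inr (Or.inr (Or.inl ⟨by push_cast; rfl, rfl⟩)))))))))))))⟩
    · exact Or.inr ⟨rfl, (Or.inr (Or.inr (Or.inr (Or.inr (Or.inr (Or.inr (Or.inr (Or.inr (Or.inr (Or.inr (Or.inr (Or.inr (Or.inl ⟨by push_cast; rfl, rfl⟩)))))))))))))⟩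
    · exact Or.inl ⟨rfl, (Or.inr (Or.inr (Or.inr (Or.inr (Or.inr (Or.inr (Or.inr (Or.inr (Or.inr (Or.inr (Or.inr (Or.inr (Or.inr (Or.inl ⟨by push_cast; rfl, rfl⟩))))))))))))))⟩
    · exact Or.inl ⟨rfl, (Or.inr (Or.inr (Or.inr (Or.inr (Or.inr (Or.inr (Or.inr (Or.inr (Or.inr (Or.inr (Or.inr (Or.inr (Or.inr (Or.inr (Or.inl ⟨by push_cast; rfl, rfl⟩)))))))))))))))⟩
    · exact Or.inl ⟨rfl, (Or.inr (Or.inr (Or.inr (Or.inr (Or.inr (Or.inr (Or.inr (Or.inr (Or.inr (Or.inr (Or.inr (Or.inr (Or.inr (Or.inr (Or.inr ⟨by push_cast; rfl, rfl⟩)))))))))))))))⟩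
    · exact Or.inr ⟨rfl, (Or.inr (Or.inr (Or.inr (Or.inr (Or.inr (Or.inr (Or.inr (Or.inr (Or.inr (Or.inr (Or.inr (Or.inr (Or.inr (Or.inl ⟨by push_cast; rfl, rfl⟩))))))))))))))⟩
    · exact Or.inr ⟨rfl, (Or.inr (Or.inr (Or.inr (Or.inr (Or.inr (Or.inr (Or.inr (Or.inr (Or.inr (Or.inr (Or.inr (Or.inr (Or.inr (Or.inr (Or.inl ⟨by push_cast; rfl, rfl⟩)))))))))))))))⟩
    · exact Or.inr ⟨rfl, (Or.inr (Or.inr (Or.inr (Or.inr (Or.inr (Or.inr (Or.inr (Or.inr (Or.inr (Or.inr (Or.inr (Or.inr (Or.inr (Or.inr (Or.inr ⟨by push_cast; rfl, rfl⟩)))))))))))))))⟩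

/-- The value set of `Q` on the coset `0`. -/
def QP0 (n : ℤ) (s : ℤ) (v : ℤ) : Prop :=
  (∃ t : ℤ, 0 ≤ t ∧ t < n ∧ (s : ℤ) = 8 * t + 0 ∧ v = 4 * t + (-4) * (n + 1) + 3) ∨
  (∃ t : ℤ, 0 ≤ t ∧ t < n ∧ (s : ℤ) = 8 * t + 2 ∧ v = 4 * t + (-4) * (n + 1) + 2) ∨
  (∃ t : ℤ, 0 ≤ t ∧ t < n ∧ (s : ℤ) = 8 * t + 4 ∧ v = 4 * t + 3) ∨
  (∃ t : ℤ, 0 ≤ t ∧ t < n ∧ (s : ℤ) = 8 * t + 6 ∧ v = 4 * t + 4) ∨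
  ((s : ℤ) = 8 * n + 1 ∧ v = 1) ∨
  ((s : ℤ) = 8 * n + 2 ∧ v = (-2)) ∨
  (∃ t : ℤ, 0 ≤ t ∧ t < n ∧ (s : ℤ) = 8 * n + 4 + 8 * t + 0 ∧ v = (-4) * t + 4 * (n + 1) + (-3)) ∨
  (∃ t : ℤ, 0 ≤ t ∧ t < n ∧ (s : ℤ) = 8 * n + 4 + 8 * t + 2 ∧ v = (-4) * t + 4 * (n + 1) + (-2)) ∨
  (∃ t : ℤ, 0 ≤ t ∧ t < n ∧ (s : ℤ) = 8 * n + 4 + 8 * t + 4 ∧ v = (-4) * t + (-3)) ∨
  (∃ t : ℤ, 0 ≤ t ∧ t < n ∧ (s : ℤ) = 8 * n + 4 + 8 * t + 6 ∧ v = (-4) * t + (-4)) ∨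
  ((s : ℤ) = 16 * n + 4 + 0 ∧ v = 4 * (n + 1) + 1) ∨
  ((s : ℤ) = 16 * n + 4 + 1 ∧ v = 0) ∨
  ((s : ℤ) = 16 * n + 4 + 6 ∧ v = (-1)) ∨
  ((s : ℤ) = 16 * n + 4 + 7 ∧ v = 4 * (n + 1) + 0) ∨
  ((s : ℤ) = 16 * n + 4 + 9 ∧ v = 4 * (n + 1) + (-1)) ∨
  ((s : ℤ) = 16 * n + 4 + 10 ∧ v = 2)

/-- The value set of `Q` on the coset `1`. -/
def QP1 (n : ℤ) (s : ℤ) (v : ℤ) : Prop :=
  (∃ t : ℤ, 0 ≤ t ∧ t < n ∧ (s : ℤ) = 8 * t + 1 ∧ v = 4 * t + (-2) * (n + 1) + 3) ∨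
  (∃ t : ℤ, 0 ≤ t ∧ t < n ∧ (s : ℤ) = 8 * t + 3 ∧ v = (-4) * t + 4 * (n + 1) + (-2)) ∨
  (∃ t : ℤ, 0 ≤ t ∧ t < n ∧ (s : ℤ) = 8 * t + 5 ∧ v = 4 * t + 4) ∨
  (∃ t : ℤ, 0 ≤ t ∧ t < n ∧ (s : ℤ) = 8 * t + 7 ∧ v = (-4) * t + 6 * (n + 1) + (-5)) ∨
  ((s : ℤ) = 8 * n + 0 ∧ v = (-2) * (n + 1) + (-1)) ∨
  ((s : ℤ) = 8 * n + 3 ∧ v = 2) ∨
  (∃ t : ℤ, 0 ≤ t ∧ t < n ∧ (s : ℤ) = 8 * n + 4 + 8 * t + 1 ∧ v = (-4) * t + 2 * (n + 1) + (-3)) ∨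
  (∃ t : ℤ, 0 ≤ t ∧ t < n ∧ (s : ℤ) = 8 * n + 4 + 8 * t + 3 ∧ v = 4 * t + (-4) * (n + 1) + 2) ∨
  (∃ t : ℤ, 0 ≤ t ∧ t < n ∧ (s : ℤ) = 8 * n + 4 + 8 * t + 5 ∧ v = (-4) * t + (-4)) ∨
  (∃ t : ℤ, 0 ≤ t ∧ t < n ∧ (s : ℤ) = 8 * n + 4 + 8 * t + 7 ∧ v = 4 * t + 2 * (n + 1) + 5) ∨
  ((s : ℤ) = 16 * n + 4 + 2 ∧ v = 4 * (n + 1) + 0) ∨
  ((s : ℤ) = 16 * n + 4 + 3 ∧ v = 2 * (n + 1) + (-1)) ∨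
  ((s : ℤ) = 16 * n + 4 + 4 ∧ v = 2 * (n + 1) + 1) ∨
  ((s : ℤ) = 16 * n + 4 + 5 ∧ v = (-2) * (n + 1) + 1) ∨
  ((s : ℤ) = 16 * n + 4 + 8 ∧ v = 0) ∨
  ((s : ℤ) = 16 * n + 4 + 11 ∧ v = (-2))

theorem Q_spec (n s : ℕ) (hs : s < 16 * n + 16) :
    (D n s = 0 ∧ QP0 n s (Q n s)) ∨ (D n s = 1 ∧ QP1 n s (Q n s)) := by
  rcases pos_cases n s hs with ⟨t, j, ht, hj, rfl⟩ | ⟨j, hj, rfl⟩ | ⟨t, j, ht, hj, rfl⟩ | ⟨j, hj, rfl⟩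
  · obtain ⟨h1, h2⟩ := Q_1 n t j ht hj
    rw [h1, h2]
    clear h1 h2
    interval_cases j
    · exact Or.inl ⟨rfl, (Or.inl ⟨t, by omega, by omega, by push_cast; rfl, rfl⟩)⟩
    · exact Or.inr ⟨rfl, (Or.inl ⟨t, by omega, by omega, by push_cast; rfl, rfl⟩)⟩
    · exact Or.inl ⟨rfl, (Or.inr (Or.inl ⟨t, by omega, by omega, by push_cast; rfl, rfl⟩))⟩
    · exact Or.inr ⟨rfl, (Or.inr (Or.inl ⟨t, by omega, by omega, by push_cast; rfl, rfl⟩))⟩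
    · exact Or.inl ⟨rfl, (Or.inr (Or.inr (Or.inl ⟨t, by omega, by omega, by push_cast; rfl, rfl⟩)))⟩
    · exact Or.inr ⟨rfl, (Or.inr (Or.inr (Or.inl ⟨t, by omega, by omega, by push_cast; rfl, rfl⟩)))⟩
    · exact Or.inl ⟨rfl, (Or.inr (Or.inr (Or.inr (Or.inl ⟨t, by omega, by omega, by push_cast; rfl, rfl⟩))))⟩
    · exact Or.inr ⟨rfl, (Or.inr (Or.inr (Or.inr (Or.inl ⟨t, by omega, by omega, by push_cast; rfl, rfl⟩))))⟩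
  · obtain ⟨h1, h2⟩ := Q_2 n j hj
    rw [h1, h2]
    clear h1 h2
    interval_cases j
    · exact Or.inr ⟨rfl, (Or.inr (Or.inr (Or.inr (Or.inr (Or.inl ⟨by push_cast; rfl, rfl⟩)))))⟩
    · exact Or.inl ⟨rfl, (Or.inr (Or.inr (Or.inr (Or.inr (Or.inl ⟨by push_cast; rfl, rfl⟩)))))⟩
    · exact Or.inl ⟨rfl, (Or.inr (Or.inr (Or.inr (Or.inr (Or.inr (Or.inl ⟨by push_cast; rfl, rfl⟩))))))⟩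
    · exact Or.inr ⟨rfl, (Or.inr (Or.inr (Or.inr (Or.inr (Or.inr (Or.inl ⟨by push_cast; rfl, rfl⟩))))))⟩
  · obtain ⟨h1, h2⟩ := Q_3 n t j ht hj
    rw [h1, h2]
    clear h1 h2
    interval_cases j
    · exact Or.inl ⟨rfl, (Or.inr (Or.inr (Or.inr (Or.inr (Or.inr (Or.inr (Or.inl ⟨t, by omega, by omega, by push_cast; rfl, rfl⟩)))))))⟩
    · exact Or.inr ⟨rfl, (Or.inr (Or.inr (Or.inr (Or.inr (Or.inr (Or.inr (Or.inl ⟨t, by omega, by omega, by push_cast; rfl, rfl⟩)))))))⟩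
    · exact Or.inl ⟨rfl, (Or.inr (Or.inr (Or.inr (Or.inr (Or.inr (Or.inr (Or.inr (Or.inl ⟨t, by omega, by omega, by push_cast; rfl, rfl⟩))))))))⟩
    · exact Or.inr ⟨rfl, (Or.inr (Or.inr (Or.inr (Or.inr (Or.inr (Or.inr (Or.inr (Or.inl ⟨t, by omega, by omega, by push_cast; rfl, rfl⟩))))))))⟩
    · exact Or.inl ⟨rfl, (Or.inr (Or.inr (Or.inr (Or.inr (Or.inr (Or.inr (Or.inr (Or.inr (Or.inl ⟨t, by omega, by omega, by push_cast; rfl, rfl⟩)))))))))⟩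
    · exact Or.inr ⟨rfl, (Or.inr (Or.inr (Or.inr (Or.inr (Or.inr (Or.inr (Or.inr (Or.inr (Or.inl ⟨t, by omega, by omega, by push_cast; rfl, rfl⟩)))))))))⟩
    · exact Or.inl ⟨rfl, (Or.inr (Or.inr (Or.inr (Or.inr (Or.inr (Or.inr (Or.inr (Or.inr (Or.inr (Or.inl ⟨t, by omega, by omega, by push_cast; rfl, rfl⟩))))))))))⟩
    · exact Or.inr ⟨rfl, (Or.inr (Or.inr (Or.inr (Or.inr (Or.inr (Or.inr (Or.inr (Or.inr (Or.inr (Or.inl ⟨t, by omega, by omega, by push_cast; rfl, rfl⟩))))))))))⟩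
  · obtain ⟨h1, h2⟩ := Q_4 n j
    rw [h1, h2]
    clear h1 h2
    interval_cases j
    · exact Or.inl ⟨rfl, (Or.inr (Or.inr (Or.inr (Or.inr (Or.inr (Or.inr (Or.inr (Or.inr (Or.inr (Or.inr (Or.inl ⟨by push_cast; rfl, rfl⟩)))))))))))⟩
    · exact Or.inl ⟨rfl, (Or.inr (Or.inr (Or.inr (Or.inr (Or.inr (Or.inr (Or.inr (Or.inr (Or.inr (Or.inr (Or.inr (Or.inl ⟨by push_cast; rfl, rfl⟩))))))))))))⟩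
    · exact Or.inr ⟨rfl, (Or.inr (Or.inr (Or.inr (Or.inr (Or.inr (Or.inr (Or.inr (Or.inr (Or.inr (Or.inr (Or.inl ⟨by push_cast; rfl, rfl⟩)))))))))))⟩
    · exact Or.inr ⟨rfl, (Or.inr (Or.inr (Or.inr (Or.inr (Or.inr (Or.inr (Or.inr (Or.inr (Or.inr (Or.inr (Or.inr (Or.inl ⟨by push_cast; rfl, rfl⟩))))))))))))⟩
    · exact Or.inr ⟨rfl, (Or.inr (Or.inr (Or.inr (Or.inr (Or.inr (Or.inr (Or.inr (Or.inr (Or.inr (Or.inr (Or.inr (Or.inr (Or.inl ⟨by push_cast; rfl, rfl⟩)))))))))))))⟩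
    · exact Or.inr ⟨rfl, (Or.inr (Or.inr (Or.inr (Or.inr (Or.inr (Or.inr (Or.inr (Or.inr (Or.inr (Or.inr (Or.inr (Or.inr (Or.inr (Or.inl ⟨by push_cast; rfl, rfl⟩))))))))))))))⟩
    · exact Or.inl ⟨rfl, (Or.inr (Or.inr (Or.inr (Or.inr (Or.inr (Or.inr (Or.inr (Or.inr (Or.inr (Or.inr (Or.inr (Or.inr (Or.inl ⟨by push_cast; rfl, rfl⟩)))))))))))))⟩
    · exact Or.inl ⟨rfl, (Or.inr (Or.inr (Or.inr (Or.inr (Or.inr (Or.inr (Or.inr (Or.inr (Or.inr (Or.inr (Or.inr (Or.inr (Or.inr (Or.inl ⟨by push_cast; rfl, rfl⟩))))))))))))))⟩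
    · exact Or.inr ⟨rfl, (Or.inr (Or.inr (Or.inr (Or.inr (Or.inr (Or.inr (Or.inr (Or.inr (Or.inr (Or.inr (Or.inr (Or.inr (Or.inr (Or.inr (Or.inl ⟨by push_cast; rfl, rfl⟩)))))))))))))))⟩
    · exact Or.inl ⟨rfl, (Or.inr (Or.inr (Or.inr (Or.inr (Or.inr (Or.inr (Or.inr (Or.inr (Or.inr (Or.inr (Or.inr (Or.inr (Or.inr (Or.inr (Or.inl ⟨by push_cast; rfl, rfl⟩)))))))))))))))⟩
    · exact Or.inl ⟨rfl, (Or.inr (Or.inr (Or.inr (Or.inr (Or.inr (Or.inr (Or.inr (Or.inr (Or.inr (Or.inr (Or.inr (Or.inr (Or.inr (Or.inr (Or.inr ⟨by push_cast; rfl, rfl⟩)))))))))))))))⟩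
    · exact Or.inr ⟨rfl, (Or.inr (Or.inr (Or.inr (Or.inr (Or.inr (Or.inr (Or.inr (Or.inr (Or.inr (Or.inr (Or.inr (Or.inr (Or.inr (Or.inr (Or.inr ⟨by push_cast; rfl, rfl⟩)))))))))))))))⟩

theorem VP0_range (n s v : ℤ) (hn : 0 ≤ n) (h : VP0 n s v) :
    -(8 * (n + 1)) < v ∧ v < 8 * (n + 1) := by
  unfold VP0 at h
  rcases h with ⟨t, ha, hb, hs, hv⟩ | ⟨t, ha, hb, hs, hv⟩ | ⟨t, ha, hb, hs, hv⟩ | ⟨t, ha, hb, hs, hv⟩ | ⟨hs, hv⟩ | ⟨t, ha, hb, hs, hv⟩ | ⟨t, ha, hb, hs, hv⟩ | ⟨t, ha, hb, hs, hv⟩ | ⟨t, ha, hb, hs, hv⟩ | ⟨hs, hv⟩ | ⟨hs, hv⟩ | ⟨hs, hv⟩ | ⟨hs, hv⟩ | ⟨hs, hv⟩ | ⟨hs, hv⟩ | ⟨hs, hv⟩ <;> omega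

theorem VP0_inj (n s u v v' : ℤ) (hn : 0 ≤ n) (hs : VP0 n s v) (hu : VP0 n u v')
    (h : v - v' = 0 ∨ v - v' = 8 * (n + 1)) : s = u := by
  unfold VP0 at hs hu
  rcases hs with ⟨t1, ha1, hb1, hs1, hv1⟩ | ⟨t1, ha1, hb1, hs1, hv1⟩ | ⟨t1, ha1, hb1, hs1, hv1⟩ | ⟨t1, ha1, hb1, hs1, hv1⟩ | ⟨hs1, hv1⟩ | ⟨t1, ha1, hb1, hs1, hv1⟩ | ⟨t1, ha1, hb1, hs1, hv1⟩ | ⟨t1, ha1, hb1, hs1, hv1⟩ | ⟨t1, ha1, hb1, hs1, hv1⟩ | ⟨hs1, hv1⟩ | ⟨hs1, hv1⟩ | ⟨hs1, hv1⟩ | ⟨hs1, hv1⟩ | ⟨hs1, hv1⟩ | ⟨hs1, hv1⟩ | ⟨hs1, hv1⟩ <;>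
  rcases hu with ⟨t2, ha2, hb2, hs2, hv2⟩ | ⟨t2, ha2, hb2, hs2, hv2⟩ | ⟨t2, ha2, hb2, hs2, hv2⟩ | ⟨t2, ha2, hb2, hs2, hv2⟩ | ⟨hs2, hv2⟩ | ⟨t2, ha2, hb2, hs2, hv2⟩ | ⟨t2, ha2, hb2, hs2, hv2⟩ | ⟨t2, ha2, hb2, hs2, hv2⟩ | ⟨t2, ha2, hb2, hs2, hv2⟩ | ⟨hs2, hv2⟩ | ⟨hs2, hv2⟩ | ⟨hs2, hv2⟩ | ⟨hs2, hv2⟩ | ⟨hs2, hv2⟩ | ⟨hs2, hv2⟩ | ⟨hs2, hv2⟩ <;> omega

theorem VP1_range (n s v : ℤ) (hn : 0 ≤ n) (h : VP1 n s v) :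
    -(8 * (n + 1)) < v ∧ v < 8 * (n + 1) := by
  unfold VP1 at h
  rcases h with ⟨t, ha, hb, hs, hv⟩ | ⟨t, ha, hb, hs, hv⟩ | ⟨t, ha, hb, hs, hv⟩ | ⟨t, ha, hb, hs, hv⟩ | ⟨hs, hv⟩ | ⟨hs, hv⟩ | ⟨hs, hv⟩ | ⟨t, ha, hb, hs, hv⟩ | ⟨t, ha, hb, hs, hv⟩ | ⟨t, ha, hb, hs, hv⟩ | ⟨t, ha, hb, hs, hv⟩ | ⟨hs, hv⟩ | ⟨hs, hv⟩ | ⟨hs, hv⟩ | ⟨hs, hv⟩ | ⟨hs, hv⟩ <;> omega

theorem VP1_inj (n s u v v' : ℤ) (hn : 0 ≤ n) (hs : VP1 n s v) (hu : VP1 n u v')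
    (h : v - v' = 0 ∨ v - v' = 8 * (n + 1)) : s = u := by
  unfold VP1 at hs hu
  rcases hs with ⟨t1, ha1, hb1, hs1, hv1⟩ | ⟨t1, ha1, hb1, hs1, hv1⟩ | ⟨t1, ha1, hb1, hs1, hv1⟩ | ⟨t1, ha1, hb1, hs1, hv1⟩ | ⟨hs1, hv1⟩ | ⟨hs1, hv1⟩ | ⟨hs1, hv1⟩ | ⟨t1, ha1, hb1, hs1, hv1⟩ | ⟨t1, ha1, hb1, hs1, hv1⟩ | ⟨t1, ha1, hb1, hs1, hv1⟩ | ⟨t1, ha1, hb1, hs1, hv1⟩ | ⟨hs1, hv1⟩ | ⟨hs1, hv1⟩ | ⟨hs1, hv1⟩ | ⟨hs1, hv1⟩ | ⟨hs1, hv1⟩ <;>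
  rcases hu with ⟨t2, ha2, hb2, hs2, hv2⟩ | ⟨t2, ha2, hb2, hs2, hv2⟩ | ⟨t2, ha2, hb2, hs2, hv2⟩ | ⟨t2, ha2, hb2, hs2, hv2⟩ | ⟨hs2, hv2⟩ | ⟨hs2, hv2⟩ | ⟨hs2, hv2⟩ | ⟨t2, ha2, hb2, hs2, hv2⟩ | ⟨t2, ha2, hb2, hs2, hv2⟩ | ⟨t2, ha2, hb2, hs2, hv2⟩ | ⟨t2, ha2, hb2, hs2, hv2⟩ | ⟨hs2, hv2⟩ | ⟨hs2, hv2⟩ | ⟨hs2, hv2⟩ | ⟨hs2, hv2⟩ | ⟨hs2, hv2⟩ <;> omega

theorem QP0_range (n s v : ℤ) (hn : 0 ≤ n) (h : QP0 n s v) :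
    -(8 * (n + 1)) < v ∧ v < 8 * (n + 1) := by
  unfold QP0 at h
  rcases h with ⟨t, ha, hb, hs, hv⟩ | ⟨t, ha, hb, hs, hv⟩ | ⟨t, ha, hb, hs, hv⟩ | ⟨t, ha, hb, hs, hv⟩ | ⟨hs, hv⟩ | ⟨hs, hv⟩ | ⟨t, ha, hb, hs, hv⟩ | ⟨t, ha, hb, hs, hv⟩ | ⟨t, ha, hb, hs, hv⟩ | ⟨t, ha, hb, hs, hv⟩ | ⟨hs, hv⟩ | ⟨hs, hv⟩ | ⟨hs, hv⟩ | ⟨hs, hv⟩ | ⟨hs, hv⟩ | ⟨hs, hv⟩ <;> omega

theorem QP0_inj (n s u v v' : ℤ) (hn : 0 ≤ n) (hs : QP0 n s v) (hu : QP0 n u v')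
    (h : v - v' = 0 ∨ v - v' = 8 * (n + 1)) : s = u := by
  unfold QP0 at hs hu
  rcases hs with ⟨t1, ha1, hb1, hs1, hv1⟩ | ⟨t1, ha1, hb1, hs1, hv1⟩ | ⟨t1, ha1, hb1, hs1, hv1⟩ | ⟨t1, ha1, hb1, hs1, hv1⟩ | ⟨hs1, hv1⟩ | ⟨hs1, hv1⟩ | ⟨t1, ha1, hb1, hs1, hv1⟩ | ⟨t1, ha1, hb1, hs1, hv1⟩ | ⟨t1, ha1, hb1, hs1, hv1⟩ | ⟨t1, ha1, hb1, hs1, hv1⟩ | ⟨hs1, hv1⟩ | ⟨hs1, hv1⟩ | ⟨hs1, hv1⟩ | ⟨hs1, hv1⟩ | ⟨hs1, hv1⟩ | ⟨hs1, hv1⟩ <;>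
  rcases hu with ⟨t2, ha2, hb2, hs2, hv2⟩ | ⟨t2, ha2, hb2, hs2, hv2⟩ | ⟨t2, ha2, hb2, hs2, hv2⟩ | ⟨t2, ha2, hb2, hs2, hv2⟩ | ⟨hs2, hv2⟩ | ⟨hs2, hv2⟩ | ⟨t2, ha2, hb2, hs2, hv2⟩ | ⟨t2, ha2, hb2, hs2, hv2⟩ | ⟨t2, ha2, hb2, hs2, hv2⟩ | ⟨t2, ha2, hb2, hs2, hv2⟩ | ⟨hs2, hv2⟩ | ⟨hs2, hv2⟩ | ⟨hs2, hv2⟩ | ⟨hs2, hv2⟩ | ⟨hs2, hv2⟩ | ⟨hs2, hv2⟩ <;> omega

theorem QP1_range (n s v : ℤ) (hn : 0 ≤ n) (h : QP1 n s v) :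
    -(8 * (n + 1)) < v ∧ v < 8 * (n + 1) := by
  unfold QP1 at h
  rcases h with ⟨t, ha, hb, hs, hv⟩ | ⟨t, ha, hb, hs, hv⟩ | ⟨t, ha, hb, hs, hv⟩ | ⟨t, ha, hb, hs, hv⟩ | ⟨hs, hv⟩ | ⟨hs, hv⟩ | ⟨t, ha, hb, hs, hv⟩ | ⟨t, ha, hb, hs, hv⟩ | ⟨t, ha, hb, hs, hv⟩ | ⟨t, ha, hb, hs, hv⟩ | ⟨hs, hv⟩ | ⟨hs, hv⟩ | ⟨hs, hv⟩ | ⟨hs, hv⟩ | ⟨hs, hv⟩ | ⟨hs, hv⟩ <;> omega

theorem QP1_inj (n s u v v' : ℤ) (hn : 0 ≤ n) (hs : QP1 n s v) (hu : QP1 n u v')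
    (h : v - v' = 0 ∨ v - v' = 8 * (n + 1)) : s = u := by
  unfold QP1 at hs hu
  rcases hs with ⟨t1, ha1, hb1, hs1, hv1⟩ | ⟨t1, ha1, hb1, hs1, hv1⟩ | ⟨t1, ha1, hb1, hs1, hv1⟩ | ⟨t1, ha1, hb1, hs1, hv1⟩ | ⟨hs1, hv1⟩ | ⟨hs1, hv1⟩ | ⟨t1, ha1, hb1, hs1, hv1⟩ | ⟨t1, ha1, hb1, hs1, hv1⟩ | ⟨t1, ha1, hb1, hs1, hv1⟩ | ⟨t1, ha1, hb1, hs1, hv1⟩ | ⟨hs1, hv1⟩ | ⟨hs1, hv1⟩ | ⟨hs1, hv1⟩ | ⟨hs1, hv1⟩ | ⟨hs1, hv1⟩ | ⟨hs1, hv1⟩ <;>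
  rcases hu with ⟨t2, ha2, hb2, hs2, hv2⟩ | ⟨t2, ha2, hb2, hs2, hv2⟩ | ⟨t2, ha2, hb2, hs2, hv2⟩ | ⟨t2, ha2, hb2, hs2, hv2⟩ | ⟨hs2, hv2⟩ | ⟨hs2, hv2⟩ | ⟨t2, ha2, hb2, hs2, hv2⟩ | ⟨t2, ha2, hb2, hs2, hv2⟩ | ⟨t2, ha2, hb2, hs2, hv2⟩ | ⟨t2, ha2, hb2, hs2, hv2⟩ | ⟨hs2, hv2⟩ | ⟨hs2, hv2⟩ | ⟨hs2, hv2⟩ | ⟨hs2, hv2⟩ | ⟨hs2, hv2⟩ | ⟨hs2, hv2⟩ <;> omega

end Pool.Agent.V1134.HarmSD
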