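import Mathlib

/-!
# R-sequencings of groups `Z_N ⋊ Z_2` given by explicit index functions
-/

namespace Pool.Agent.V1134.RSeq

/-- `G` is R-sequenceable: the non-identity elements can be listed cyclically
(indices in `ZMod (|G| - 1)`) so that the quotients of cyclically consecutive elements are
pairwise distinct. -/
def RSequenceable (G : Type*) [Group G] : Prop :=
  ∃ x : ZMod (Nat.card G - 1) → G, Function.Injective x ∧ Set.range x = {g : G | g ≠ 1} ∧
    Function.Injective (fun i => (x i)⁻¹ * x (i + 1))

theorem RSequenceable.of_mulEquiv {G H : Type*} [Group G] [Group H] (e : G ≃* H)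
    (h : RSequenceable G) : RSequenceable H := by
  obtain ⟨x, hx, hr, hq⟩ := h
  have hc : Nat.card H = Nat.card G := (Nat.card_congr e.toEquiv).symm
  unfold RSequenceable
  rw [hc]
  refine ⟨fun i => e (x i), e.injective.comp hx, ?_, ?_⟩
  · ext g
    constructor
    · rintro ⟨i, rfl⟩
      have : x i ∈ Set.range x := ⟨i, rfl⟩
      rw [hr] at this
      simpa using this
    · intro hg
      have : e.symm g ∈ Set.range x := by
        rw [hr]; simpa using hg
      obtain ⟨i, hi⟩ := this
      exact ⟨i, by simp [hi]⟩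
  · intro i j hij
    apply hq
    apply e.injective
    simpa using hij

/-- A cyclic listing missing one element with pairwise distinct nontrivial consecutive
quotients suffices. -/
theorem RSequenceable.of_missing {G : Type*} [Group G] [Finite G] (c : G)
    (x : ℕ → G) (hinj : ∀ s t, s < Nat.card G - 1 → t < Nat.card G - 1 → x s = x t → s = t)
    (hc : ∀ t, t < Nat.card G - 1 → x t ≠ c)
    (q : ℕ → G) (hq : ∀ t, t + 1 < Nat.card G - 1 → (x t)⁻¹ * x (t + 1) = q t)
    (hq' : ∀ t, t + 1 = Nat.card G - 1 → (x t)⁻¹ * x 0 = q t)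
    (hqinj : ∀ s t, s < Nat.card G - 1 → t < Nat.card G - 1 → q s = q t → s = t)
    (h3 : 3 ≤ Nat.card G) : RSequenceable G := by
  have hne : NeZero (Nat.card G - 1) := ⟨by omega⟩
  have hval : ∀ i : ZMod (Nat.card G - 1), i.val < Nat.card G - 1 := fun i => ZMod.val_lt i
  have hinj' : Function.Injective (fun i : ZMod (Nat.card G - 1) => c⁻¹ * x i.val) := by
    intro i j hij
    have := hinj _ _ (hval i) (hval j) (mul_left_cancel hij)
    exact ZMod.val_injective _ this
  have hone : Fact (1 < Nat.card G - 1) := ⟨by omega⟩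
  refine ⟨fun i => c⁻¹ * x i.val, hinj', ?_, ?_⟩
  · -- range
    have hsub : Set.range (fun i : ZMod (Nat.card G - 1) => c⁻¹ * x i.val) ⊆ {g : G | g ≠ 1} := by
      rintro _ ⟨i, rfl⟩ h
      exact hc _ (hval i) (inv_mul_eq_one.mp h).symm
    refine Set.eq_of_subset_of_ncard_le hsub ?_ (Set.toFinite _)
    rw [Set.ncard_range_of_injective hinj', Nat.card_zmod]
    have h1 : ({g : G | g ≠ 1} : Set G) = ({1} : Set G)ᶜ := by ext g; simp
    rw [h1, Set.ncard_compl, Set.ncard_singleton]
  · have hstep : ∀ i : ZMod (Nat.card G - 1),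
        (c⁻¹ * x i.val)⁻¹ * (c⁻¹ * x (i + 1).val) = q i.val := by
      intro i
      have h1 : (c⁻¹ * x i.val)⁻¹ * (c⁻¹ * x (i + 1).val) = (x i.val)⁻¹ * x (i + 1).val := by
        group
      rw [h1]
      have hv := hval i
      by_cases hlt : i.val + 1 < Nat.card G - 1
      · have : (i + 1).val = i.val + 1 := by
          rw [ZMod.val_add, ZMod.val_one, Nat.mod_eq_of_lt hlt]
        rw [this]
        exact hq _ hlt
      · have h2 : i.val + 1 = Nat.card G - 1 := by omega
        have : (i + 1).val = 0 := by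
          rw [ZMod.val_add, ZMod.val_one, h2, Nat.mod_self]
        rw [this]
        exact hq' _ h2
    intro i j hij
    simp only [hstep] at hij
    exact ZMod.val_injective _ (hqinj _ _ (hval i) (hval j) hij)

/-- The group `Z_N ⋊ Z_2` on `ZMod N × Bool`, where the generator of `Z_2` acts by
multiplication by `r`, `r² = 1`. -/
structure Tw (N : ℕ) (r : ZMod N) where
  i : ZMod N
  c : Bool

namespace Tw

variable {N : ℕ} {r : ZMod N}

theorem ext' {x y : Tw N r} (h1 : x.i = y.i) (h2 : x.c = y.c) : x = y := by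
  cases x; cases y; simp_all

/-- The group structure. -/
@[reducible] def group (N : ℕ) (r : ZMod N) (hr : r * r = 1) : Group (Tw N r) :=
  letI : Mul (Tw N r) := ⟨fun x y => ⟨x.i + (if x.c then r * y.i else y.i), xor x.c y.c⟩⟩
  letI : One (Tw N r) := ⟨⟨0, false⟩⟩
  letI : Inv (Tw N r) := ⟨fun x => ⟨if x.c then -(r * x.i) else -x.i, x.c⟩⟩
  Group.ofLeftAxioms
    (by
      rintro ⟨i, c⟩ ⟨j, d⟩ ⟨k, e⟩
      apply ext'
      · show i + (if c then r * j else j) + (if xor c d then r * k else k) =
          i + (if c then r * (j + if d then r * k else k) else (j + if d then r * k else k))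
        cases c <;> cases d <;> simp <;> ring_nf
        rw [pow_two, hr]; ring
      · show xor (xor c d) e = xor c (xor d e)
        simp)
    (by
      rintro ⟨i, c⟩
      apply ext'
      · show (0 : ZMod N) + (if false then r * i else i) = i
        simp
      · show xor false c = c
        simp)
    (by
      rintro ⟨i, c⟩
      apply ext'
      · show (if c then -(r * i) else -i) + (if c then r * i else i) = 0
        cases c <;> simp
      · show xor c c = false
        simp)

end Tw

theorem card_tw (N : ℕ) (r : ZMod N) : Nat.card (Tw N r) = N * 2 := by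
  have e : Tw N r ≃ ZMod N × Bool :=
    ⟨fun x => (x.i, x.c), fun x => ⟨x.1, x.2⟩, fun _ => rfl, fun _ => rfl⟩
  rw [Nat.card_congr e, Nat.card_prod, Nat.card_zmod]
  simp

/-- The criterion: natural-number index functions give an R-sequencing of `Tw (8k) r`. -/
theorem rseq_tw (k : ℕ) (hk : 1 ≤ k) (r : ZMod (8 * k)) (hr : r * r = 1) (ρ : ℕ → ℤ)
    (hρ : ∀ v : ℕ, ((ρ v : ℤ) : ZMod (8 * k)) = r * (v : ZMod (8 * k)))
    (V : ℕ → ℕ) (C : ℕ → Bool) (Q : ℕ → ℕ) (D : ℕ → Bool) (m : ℕ) (mc : Bool) (hm : m < 8 * k)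
    (hV : ∀ t, t < 16 * k - 1 → V t < 8 * k) (hQ : ∀ t, t < 16 * k - 1 → Q t < 8 * k)
    (hinj : ∀ s t, s < 16 * k - 1 → t < 16 * k - 1 → V s = V t → C s = C t → s = t)
    (hqinj : ∀ s t, s < 16 * k - 1 → t < 16 * k - 1 → Q s = Q t → D s = D t → s = t)
    (hmiss : ∀ t, t < 16 * k - 1 → ¬ (V t = m ∧ C t = mc))
    (hstep : ∀ t, t + 1 < 16 * k - 1 → D t = xor (C t) (C (t + 1)) ∧
      ∃ e : ℤ, (if C t = C (t + 1) then (V (t + 1) : ℤ) - V t else ρ (V (t + 1)) - V t)
        = Q t + 8 * k * e)
    (hlast : ∀ t, t + 1 = 16 * k - 1 → D t = xor (C t) (C 0) ∧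
      ∃ e : ℤ, (if C t = C 0 then (V 0 : ℤ) - V t else ρ (V 0) - V t) = Q t + 8 * k * e) :
    letI := Tw.group (8 * k) r hr
    RSequenceable (Tw (8 * k) r) := by
  let _ := Tw.group (8 * k) r hr
  have hN : NeZero (8 * k) := ⟨by omega⟩
  have hcard : Nat.card (Tw (8 * k) r) - 1 = 16 * k - 1 := by rw [card_tw]; omega
  have hfin : Finite (Tw (8 * k) r) := by
    apply Nat.finite_of_card_ne_zero; rw [card_tw]; omega
  have hcast : ∀ a b : ℕ, a < 8 * k → b < 8 * k → (a : ZMod (8 * k)) = b → a = b := by
    intro a b ha hb hab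
    have := congrArg ZMod.val hab
    rwa [ZMod.val_natCast_of_lt ha, ZMod.val_natCast_of_lt hb] at this
  have hrinj : ∀ a b : ZMod (8 * k), r * a = r * b → a = b := by
    intro a b hab
    have := congrArg (fun z => r * z) hab
    simp only [← mul_assoc, hr, one_mul] at this
    exact this
  -- elements
  let mk : ℕ → Bool → Tw (8 * k) r := fun v c =>
    ⟨if c then r * (v : ZMod (8 * k)) else (v : ZMod (8 * k)), c⟩
  have hmk : ∀ v w : ℕ, ∀ c d : Bool, v < 8 * k → w < 8 * k → mk v c = mk w d → v = w ∧ c = d := by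
    intro v w c d hv hw h
    have h2 : c = d := congrArg Tw.c h
    have h1 : (if c then r * (v : ZMod (8 * k)) else (v : ZMod (8 * k))) =
      (if d then r * (w : ZMod (8 * k)) else (w : ZMod (8 * k))) := congrArg Tw.i h
    subst h2
    refine ⟨?_, rfl⟩
    cases c
    · exact hcast _ _ hv hw (by simpa using h1)
    · exact hcast _ _ hv hw (hrinj _ _ (by simpa using h1))
  have hquot : ∀ v w q : ℕ, ∀ c d : Bool, ∀ e : ℤ,
      (if c = d then (w : ℤ) - v else ρ w - v) = q + 8 * k * e →
      (mk v c)⁻¹ * mk w d = ⟨(q : ZMod (8 * k)), xor c d⟩ := by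
    intro v w q c d e h
    have h' : (((if c = d then (w : ℤ) - v else ρ w - v) : ℤ) : ZMod (8 * k)) = (q : ZMod (8 * k)) := by
      rw [h]
      push_cast
      have : ((8 : ZMod (8 * k)) * (k : ZMod (8 * k))) = 0 := by
        have := ZMod.natCast_self (8 * k)
        push_cast at this
        exact this
      rw [this]; ring
    apply Tw.ext'
    · show (if c then -(r * (if c then r * (v : ZMod (8 * k)) else (v : ZMod (8 * k))))
          else -(if c then r * (v : ZMod (8 * k)) else (v : ZMod (8 * k)))) +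
        (if c then r * (if d then r * (w : ZMod (8 * k)) else (w : ZMod (8 * k))) else
          (if d then r * (w : ZMod (8 * k)) else (w : ZMod (8 * k)))) = (q : ZMod (8 * k))
      rw [← h']
      cases c <;> cases d <;> simp only [Bool.false_eq_true, if_true, if_false, reduceCtorEq,
        Int.cast_sub, hρ, Int.cast_natCast]
      · ring
      · ring
      · rw [← mul_assoc, hr]; ring
      · rw [← mul_assoc, hr, ← mul_assoc, hr]; ring
    · rfl
  refine RSequenceable.of_missing (mk m mc) (fun t => mk (V t) (C t)) ?_ ?_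
    (fun t => ⟨(Q t : ZMod (8 * k)), D t⟩) ?_ ?_ ?_ ?_
  · intro s t hs ht h
    rw [hcard] at hs ht
    obtain ⟨h1, h2⟩ := hmk _ _ _ _ (hV s hs) (hV t ht) h
    exact hinj s t hs ht h1 h2
  · intro t ht h
    rw [hcard] at ht
    exact hmiss t ht (hmk _ _ _ _ (hV t ht) hm h)
  · intro t ht
    rw [hcard] at ht
    obtain ⟨h1, e, h2⟩ := hstep t ht
    simp only [h1]
    exact hquot _ _ _ _ _ e h2
  · intro t ht
    rw [hcard] at ht
    obtain ⟨h1, e, h2⟩ := hlast t ht
    simp only [h1]
    exact hquot _ _ _ _ _ e h2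
  · intro s t hs ht h
    rw [hcard] at hs ht
    have h1 : (Q s : ZMod (8 * k)) = Q t := congrArg Tw.i h
    have h2 : D s = D t := congrArg Tw.c h
    exact hqinj s t hs ht (hcast _ _ (hQ s hs) (hQ t ht) h1) h2
  · rw [card_tw]; omega

/-- A group generated by `a, b` with `a ^ N = b ^ 2 = 1`, `b a b⁻¹ = a ^ s` presented by these
relations is isomorphic to the model. -/
def rels (N s : ℕ) : Set (FreeGroup Bool) :=
  {FreeGroup.of false ^ N, FreeGroup.of true ^ 2,
    FreeGroup.of true * FreeGroup.of false * (FreeGroup.of true)⁻¹ * (FreeGroup.of false ^ s)⁻¹}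

/-- The presented group `⟨a, b | a ^ N = b ^ 2 = 1, b a b⁻¹ = a ^ s⟩`
(`a = of false`, `b = of true`). -/
abbrev Pres (N s : ℕ) : Type := PresentedGroup (rels N s)

theorem pres_equiv (N s : ℕ) [NeZero N] (hr : (s : ZMod N) * s = 1) :
    letI := Tw.group N (s : ZMod N) hr
    Nonempty (Tw N (s : ZMod N) ≃* Pres N s) := by
  let _ := Tw.group N (s : ZMod N) hr
  let a : Pres N s := PresentedGroup.of false
  let b : Pres N s := PresentedGroup.of true
  have ha : a ^ N = 1 := by
    have : (PresentedGroup.mk (rels N s)) (FreeGroup.of false ^ N) = 1 :=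
      PresentedGroup.one_of_mem (by simp [rels])
    simp only [map_pow, map_mul, map_inv] at this
    exact this
  have hb : b ^ 2 = 1 := by
    have : (PresentedGroup.mk (rels N s)) (FreeGroup.of true ^ 2) = 1 :=
      PresentedGroup.one_of_mem (by simp [rels])
    simp only [map_pow, map_mul, map_inv] at this
    exact this
  have hab : b * a * b⁻¹ * (a ^ s)⁻¹ = 1 := by
    have : (PresentedGroup.mk (rels N s)) (FreeGroup.of true * FreeGroup.of false *
        (FreeGroup.of true)⁻¹ * (FreeGroup.of false ^ s)⁻¹) = 1 :=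
      PresentedGroup.one_of_mem (by simp [rels])
    simp only [map_pow, map_mul, map_inv] at this
    exact this
  have hab' : b * a * b⁻¹ = a ^ s := mul_inv_eq_one.mp hab
  have hbinv : b⁻¹ = b := by
    rw [inv_eq_iff_mul_eq_one, ← pow_two, hb]
  have hpow : ∀ m : ℕ, b * a ^ m = a ^ (s * m) * b := by
    intro m
    have : b * a ^ m * b⁻¹ = a ^ (s * m) := by
      rw [← conj_pow, hab', ← pow_mul]
    rw [← this]; group
  have hmod : ∀ m m' : ℕ, ((m : ℕ) : ZMod N) = m' → a ^ m = a ^ m' := by
    intro m m' h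
    rw [pow_eq_pow_mod m ha, pow_eq_pow_mod m' ha]
    rw [ZMod.natCast_eq_natCast_iff] at h
    rw [h]
  -- the two homs
  let ψ : Tw N (s : ZMod N) →* Pres N s :=
    MonoidHom.mk' (fun x => a ^ x.i.val * (if x.c then b else 1)) (by
      rintro ⟨i, c⟩ ⟨j, d⟩
      show a ^ (i + (if c then (s : ZMod N) * j else j)).val * (if xor c d then b else 1) =
        (a ^ i.val * (if c then b else 1)) * (a ^ j.val * (if d then b else 1))
      cases c
      · have h1 : a ^ (i + j).val = a ^ i.val * a ^ j.val := by
          rw [← pow_add]; apply hmod; simp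
        cases d <;> simp [h1, mul_assoc]
      · have h1 : a ^ (i + (s : ZMod N) * j).val = a ^ i.val * a ^ (s * j.val) := by
          rw [← pow_add]; apply hmod; simp
        have h2 := hpow j.val
        have h3 : b * b = 1 := by rw [← pow_two, hb]
        cases d
        · simp only [if_true, Bool.xor_false, h1, Bool.false_eq_true, if_false, mul_one]
          rw [mul_assoc, mul_assoc, h2]
        · simp only [if_true, Bool.xor_self, h1, Bool.false_eq_true, if_false, mul_one]
          rw [mul_assoc (a ^ i.val) b, ← mul_assoc b, h2, mul_assoc (a ^ (s * j.val)), h3, mul_one])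
  let A : Tw N (s : ZMod N) := ⟨1, false⟩
  let B : Tw N (s : ZMod N) := ⟨0, true⟩
  have hmul : ∀ x y : Tw N (s : ZMod N), x * y =
    ⟨x.i + (if x.c then (s : ZMod N) * y.i else y.i), xor x.c y.c⟩ := fun _ _ => rfl
  have hApow : ∀ m : ℕ, A ^ m = ⟨(m : ZMod N), false⟩ := by
    intro m
    induction m with
    | zero => rw [pow_zero]; show (⟨0, false⟩ : Tw N (s : ZMod N)) = _; simp
    | succ m ih => rw [pow_succ, ih, hmul]; simp [A]
  have h1 : (1 : Tw N (s : ZMod N)) = ⟨0, false⟩ := rfl
  have hBB : B * B = 1 := by rw [hmul, h1]; simp [B]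
  have hrel : ∀ x ∈ rels N s, FreeGroup.lift (fun i : Bool => if i then B else A) x = 1 := by
    intro x hx
    simp only [rels, Set.mem_insert_iff, Set.mem_singleton_iff] at hx
    rcases hx with rfl | rfl | rfl
    · simp [hApow, h1]
    · simp [pow_two, hBB]
    · have hBinv : B⁻¹ = B := by rw [inv_eq_iff_mul_eq_one, hBB]
      simp only [map_mul, map_inv, map_pow, FreeGroup.lift_apply_of, Bool.false_eq_true, if_true,
        if_false, hBinv]
      rw [mul_inv_eq_one, hApow, hmul, hmul]
      simp [A, B]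
  let φ : Pres N s →* Tw N (s : ZMod N) := PresentedGroup.toGroup hrel
  have hφa : φ a = A := by
    show PresentedGroup.toGroup hrel (PresentedGroup.of false) = A
    rw [PresentedGroup.toGroup.of]; simp
  have hφb : φ b = B := by
    show PresentedGroup.toGroup hrel (PresentedGroup.of true) = B
    rw [PresentedGroup.toGroup.of]; simp
  refine ⟨MulEquiv.mk' ⟨ψ, φ, ?_, ?_⟩ (fun x y => map_mul ψ x y)⟩
  · rintro ⟨i, c⟩
    show φ (a ^ i.val * (if c then b else 1)) = _
    rw [map_mul, map_pow, hφa, hApow]
    cases c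
    · simp
    · simp only [if_true, hφb, hmul]
      simp [B]
  · intro x
    have : (ψ.comp φ) = MonoidHom.id _ := by
      apply PresentedGroup.ext
      intro i
      cases i
      · show ψ (φ a) = a
        rw [hφa]
        show a ^ (1 : ZMod N).val * (if false then b else 1) = a
        have : a ^ (1 : ZMod N).val = a ^ 1 := by apply hmod; simp
        simp [this]
      · show ψ (φ b) = b
        rw [hφb]
        show a ^ (0 : ZMod N).val * (if true then b else 1) = b
        simp
    exact DFunLike.congr_fun this x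

end Pool.Agent.V1134.RSeq
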