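import Pool.Agent.V1134.RSeq

/-!
# R-sequencing criterion with separate index functions for even and odd positions
-/

namespace Pool.Agent.V1134.RSeq

/-- Even/odd version of `rseq_tw`. Codes: an element `(v, c)` is coded by `2 * v + c`. -/
theorem rseq_tw2 (k : ℕ) (hk : 1 ≤ k) (r : ZMod (8 * k)) (hr : r * r = 1) (ρ : ℕ → ℤ)
    (hρ : ∀ v : ℕ, ((ρ v : ℤ) : ZMod (8 * k)) = r * (v : ZMod (8 * k)))
    (VE CE VO CO QE DE QO DO : ℕ → ℕ) (m mc : ℕ) (hm : m < 8 * k) (hmc : mc ≤ 1)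
    (hE : ∀ j, j < 8 * k → VE j < 8 * k ∧ QE j < 8 * k ∧ CE j ≤ 1 ∧ DE j ≤ 1)
    (hO : ∀ j, j < 8 * k - 1 → VO j < 8 * k ∧ QO j < 8 * k ∧ CO j ≤ 1 ∧ DO j ≤ 1)
    (i1 : ∀ i j, i < 8 * k → j < 8 * k → VE i = VE j → CE i = CE j → i = j)
    (i2 : ∀ i j, i < 8 * k → j < 8 * k - 1 → VE i = VO j → CE i = CO j → False)
    (i3 : ∀ i j, i < 8 * k - 1 → j < 8 * k - 1 → VO i = VO j → CO i = CO j → i = j)
    (q1 : ∀ i j, i < 8 * k → j < 8 * k → QE i = QE j → DE i = DE j → i = j)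
    (q2 : ∀ i j, i < 8 * k → j < 8 * k - 1 → QE i = QO j → DE i = DO j → False)
    (q3 : ∀ i j, i < 8 * k - 1 → j < 8 * k - 1 → QO i = QO j → DO i = DO j → i = j)
    (m1 : ∀ j, j < 8 * k → VE j = m → CE j = mc → False)
    (m2 : ∀ j, j < 8 * k - 1 → VO j = m → CO j = mc → False)
    (s1 : ∀ j, j < 8 * k - 1 → DE j = (CE j + CO j) % 2 ∧
      ((CE j = CO j → ∃ e : ℤ, (VO j : ℤ) - VE j = QE j + 8 * k * e) ∧
       (CE j ≠ CO j → ∃ e : ℤ, ρ (VO j) - VE j = QE j + 8 * k * e)))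
    (s2 : ∀ j, j < 8 * k - 1 → DO j = (CO j + CE (j + 1)) % 2 ∧
      ((CO j = CE (j + 1) → ∃ e : ℤ, (VE (j + 1) : ℤ) - VO j = QO j + 8 * k * e) ∧
       (CO j ≠ CE (j + 1) → ∃ e : ℤ, ρ (VE (j + 1)) - VO j = QO j + 8 * k * e)))
    (s3 : ∀ j, j + 1 = 8 * k → DE j = (CE j + CE 0) % 2 ∧
      ((CE j = CE 0 → ∃ e : ℤ, (VE 0 : ℤ) - VE j = QE j + 8 * k * e) ∧
       (CE j ≠ CE 0 → ∃ e : ℤ, ρ (VE 0) - VE j = QE j + 8 * k * e))) :
    letI := Tw.group (8 * k) r hr
    RSequenceable (Tw (8 * k) r) := by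
  have hdec : ∀ a b : ℕ, a ≤ 1 → b ≤ 1 → (decide (a = 1) = decide (b = 1) ↔ a = b) := by
    intro a b ha hb
    rw [decide_eq_decide]; omega
  have hxor : ∀ a b d : ℕ, a ≤ 1 → b ≤ 1 → d = (a + b) % 2 →
      decide (d = 1) = xor (decide (a = 1)) (decide (b = 1)) := by
    intro a b d ha hb hd
    subst hd
    interval_cases a <;> interval_cases b <;> rfl
  refine rseq_tw k hk r hr ρ hρ
    (fun t => if t % 2 = 0 then VE (t / 2) else VO (t / 2))
    (fun t => decide ((if t % 2 = 0 then CE (t / 2) else CO (t / 2)) = 1))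
    (fun t => if t % 2 = 0 then QE (t / 2) else QO (t / 2))
    (fun t => decide ((if t % 2 = 0 then DE (t / 2) else DO (t / 2)) = 1))
    m (decide (mc = 1)) hm ?_ ?_ ?_ ?_ ?_ ?_ ?_
  · intro t ht
    by_cases h : t % 2 = 0
    · rw [if_pos h]; exact (hE _ (by omega)).1
    · rw [if_neg h]; exact (hO _ (by omega)).1
  · intro t ht
    by_cases h : t % 2 = 0
    · rw [if_pos h]; exact (hE _ (by omega)).2.1
    · rw [if_neg h]; exact (hO _ (by omega)).2.1
  · intro s t hs ht h h'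
    by_cases hs2 : s % 2 = 0 <;> by_cases ht2 : t % 2 = 0
    · rw [if_pos hs2, if_pos ht2] at h h'
      have h1 := hE (s / 2) (by omega)
      have h2 := hE (t / 2) (by omega)
      rw [hdec _ _ h1.2.2.1 h2.2.2.1] at h'
      have := i1 _ _ (by omega) (by omega) h h'
      omega
    · rw [if_pos hs2, if_neg ht2] at h h'
      have h1 := hE (s / 2) (by omega)
      have h2 := hO (t / 2) (by omega)
      rw [hdec _ _ h1.2.2.1 h2.2.2.1] at h'
      exact (i2 _ _ (by omega) (by omega) h h').elim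
    · rw [if_neg hs2, if_pos ht2] at h h'
      have h1 := hO (s / 2) (by omega)
      have h2 := hE (t / 2) (by omega)
      rw [hdec _ _ h1.2.2.1 h2.2.2.1] at h'
      exact (i2 _ _ (by omega) (by omega) h.symm h'.symm).elim
    · rw [if_neg hs2, if_neg ht2] at h h'
      have h1 := hO (s / 2) (by omega)
      have h2 := hO (t / 2) (by omega)
      rw [hdec _ _ h1.2.2.1 h2.2.2.1] at h'
      have := i3 _ _ (by omega) (by omega) h h'
      omega
  · intro s t hs ht h h'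
    by_cases hs2 : s % 2 = 0 <;> by_cases ht2 : t % 2 = 0
    · rw [if_pos hs2, if_pos ht2] at h h'
      have h1 := hE (s / 2) (by omega)
      have h2 := hE (t / 2) (by omega)
      rw [hdec _ _ h1.2.2.2 h2.2.2.2] at h'
      have := q1 _ _ (by omega) (by omega) h h'
      omega
    · rw [if_pos hs2, if_neg ht2] at h h'
      have h1 := hE (s / 2) (by omega)
      have h2 := hO (t / 2) (by omega)
      rw [hdec _ _ h1.2.2.2 h2.2.2.2] at h'
      exact (q2 _ _ (by omega) (by omega) h h').elim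
    · rw [if_neg hs2, if_pos ht2] at h h'
      have h1 := hO (s / 2) (by omega)
      have h2 := hE (t / 2) (by omega)
      rw [hdec _ _ h1.2.2.2 h2.2.2.2] at h'
      exact (q2 _ _ (by omega) (by omega) h.symm h'.symm).elim
    · rw [if_neg hs2, if_neg ht2] at h h'
      have h1 := hO (s / 2) (by omega)
      have h2 := hO (t / 2) (by omega)
      rw [hdec _ _ h1.2.2.2 h2.2.2.2] at h'
      have := q3 _ _ (by omega) (by omega) h h'
      omega
  · rintro t ht ⟨h, h'⟩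
    by_cases ht2 : t % 2 = 0
    · rw [if_pos ht2] at h h'
      have h1 := hE (t / 2) (by omega)
      rw [hdec _ _ h1.2.2.1 hmc] at h'
      exact m1 _ (by omega) h h'
    · rw [if_neg ht2] at h h'
      have h1 := hO (t / 2) (by omega)
      rw [hdec _ _ h1.2.2.1 hmc] at h'
      exact m2 _ (by omega) h h'
  · intro t ht
    by_cases ht2 : t % 2 = 0
    · have ht3 : ¬ (t + 1) % 2 = 0 := by omega
      have ht4 : (t + 1) / 2 = t / 2 := by omega
      simp only [if_pos ht2, if_neg ht3, ht4]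
      have hc1 := hE (t / 2) (by omega)
      have hc2 := hO (t / 2) (by omega)
      obtain ⟨h1, h2, h3⟩ := s1 (t / 2) (by omega)
      refine ⟨hxor _ _ _ hc1.2.2.1 hc2.2.2.1 h1, ?_⟩
      by_cases hc : CE (t / 2) = CO (t / 2)
      · rw [if_pos (by rw [hc])]
        exact h2 hc
      · rw [if_neg (by rw [hdec _ _ hc1.2.2.1 hc2.2.2.1]; exact hc)]
        exact h3 hc
    · have ht3 : (t + 1) % 2 = 0 := by omega
      have ht4 : (t + 1) / 2 = t / 2 + 1 := by omega
      simp only [if_neg ht2, if_pos ht3, ht4]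
      have hc1 := hO (t / 2) (by omega)
      have hc2 := hE (t / 2 + 1) (by omega)
      obtain ⟨h1, h2, h3⟩ := s2 (t / 2) (by omega)
      refine ⟨hxor _ _ _ hc1.2.2.1 hc2.2.2.1 h1, ?_⟩
      by_cases hc : CO (t / 2) = CE (t / 2 + 1)
      · rw [if_pos (by rw [hc])]
        exact h2 hc
      · rw [if_neg (by rw [hdec _ _ hc1.2.2.1 hc2.2.2.1]; exact hc)]
        exact h3 hc
  · intro t ht
    have ht2 : t % 2 = 0 := by omega
    simp only [if_pos ht2, Nat.zero_mod, if_true, Nat.zero_div]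
    have hc1 := hE (t / 2) (by omega)
    have hc2 := hE 0 (by omega)
    obtain ⟨h1, h2, h3⟩ := s3 (t / 2) (by omega)
    refine ⟨hxor _ _ _ hc1.2.2.1 hc2.2.2.1 h1, ?_⟩
    by_cases hc : CE (t / 2) = CE 0
    · rw [if_pos (by rw [hc])]
      exact h2 hc
    · rw [if_neg (by rw [hdec _ _ hc1.2.2.1 hc2.2.2.1]; exact hc)]
      exact h3 hc

end Pool.Agent.V1134.RSeq
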