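import Pool.Agent.V1134.Frob

/-!
# Solomon's theorem on the number of solutions of one equation in a finite group
-/

set_option autoImplicit false

namespace Pool.Agent.V1134.Solomon

section general

variable {F H : Type*} [Group F] [Group H] (e : F →* Multiplicative ℤ) (t : F)
  (ht : e t = Multiplicative.ofAdd 1)

theorem conj_zpow (φ : F →* H) (c : H) (hc : ∀ k ∈ e.ker, Commute c (φ k)) :
    ∀ (n : ℤ) (l : F), l ∈ e.ker →
      (φ t * c) ^ n * φ l * ((φ t * c) ^ n)⁻¹ = φ (t ^ n * l * (t ^ n)⁻¹) := by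
  have hstep : ∀ l ∈ e.ker, (φ t * c) * φ l * (φ t * c)⁻¹ = φ (t * l * t⁻¹) := by
    intro l hl
    have h1 : c * φ l * c⁻¹ = φ l := by
      rw [(hc l hl).eq]
      group
    calc (φ t * c) * φ l * (φ t * c)⁻¹ = φ t * (c * φ l * c⁻¹) * (φ t)⁻¹ := by group
      _ = φ t * φ l * (φ t)⁻¹ := by rw [h1]
      _ = φ (t * l * t⁻¹) := by rw [map_mul, map_mul, map_inv]
  have hstep' : ∀ l ∈ e.ker, (φ t * c)⁻¹ * φ l * (φ t * c) = φ (t⁻¹ * l * t) := by
    intro l hl
    have h2 : t⁻¹ * l * t ∈ e.ker := by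
      have := (inferInstance : e.ker.Normal).conj_mem l hl t⁻¹
      simpa using this
    have h1 : c⁻¹ * φ (t⁻¹ * l * t) * c = φ (t⁻¹ * l * t) := by
      have := (hc _ h2).eq
      rw [mul_assoc, ← this]
      group
    calc (φ t * c)⁻¹ * φ l * (φ t * c) = c⁻¹ * ((φ t)⁻¹ * φ l * φ t) * c := by group
      _ = c⁻¹ * φ (t⁻¹ * l * t) * c := by rw [map_mul, map_mul, map_inv]
      _ = _ := h1
  intro n
  induction n using Int.induction_on with
  | zero =>
    intro l _
    simp
  | succ i ih =>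
    intro l hl
    have h2 : t * l * t⁻¹ ∈ e.ker := (inferInstance : e.ker.Normal).conj_mem l hl t
    have h3 := ih _ h2
    rw [zpow_add, zpow_one, zpow_add, zpow_one]
    calc (φ t * c) ^ (i : ℤ) * (φ t * c) * φ l * ((φ t * c) ^ (i : ℤ) * (φ t * c))⁻¹ =
        (φ t * c) ^ (i : ℤ) * ((φ t * c) * φ l * (φ t * c)⁻¹) * ((φ t * c) ^ (i : ℤ))⁻¹ := by
          simp only [mul_inv_rev, mul_assoc]
      _ = _ := by
          rw [hstep l hl, h3]
          congr 1
          simp only [mul_inv_rev, mul_assoc]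
  | pred i ih =>
    intro l hl
    have h2 : t⁻¹ * l * t ∈ e.ker := by
      have := (inferInstance : e.ker.Normal).conj_mem l hl t⁻¹
      simpa using this
    have h3 := ih _ h2
    rw [zpow_sub, zpow_one, zpow_sub, zpow_one]
    calc (φ t * c) ^ (-(i : ℤ)) * (φ t * c)⁻¹ * φ l *
          ((φ t * c) ^ (-(i : ℤ)) * (φ t * c)⁻¹)⁻¹ =
        (φ t * c) ^ (-(i : ℤ)) * ((φ t * c)⁻¹ * φ l * (φ t * c)) *
          ((φ t * c) ^ (-(i : ℤ)))⁻¹ := by
          simp only [mul_inv_rev, mul_assoc, inv_inv]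
      _ = _ := by
          rw [hstep' l hl, h3]
          congr 1
          simp only [mul_inv_rev, mul_assoc, inv_inv]

include ht in
theorem ker_part (g : F) : g * (t ^ (Multiplicative.toAdd (e g)))⁻¹ ∈ e.ker := by
  rw [MonoidHom.mem_ker, map_mul, map_inv, map_zpow, ht]
  apply Multiplicative.toAdd.injective
  simp

/-- The homomorphism that agrees with `φ` on the kernel of `e` and maps `t` to `φ t * c`. -/
def twist (φ : F →* H) (c : H) (hc : ∀ k ∈ e.ker, Commute c (φ k)) : F →* H where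
  toFun g := φ (g * (t ^ (Multiplicative.toAdd (e g)))⁻¹) *
    (φ t * c) ^ (Multiplicative.toAdd (e g))
  map_one' := by simp
  map_mul' g h := by
    set n := Multiplicative.toAdd (e g) with hn
    set m := Multiplicative.toAdd (e h) with hm
    have h1 : Multiplicative.toAdd (e (g * h)) = n + m := by rw [map_mul, toAdd_mul]
    rw [h1]
    have hl : h * (t ^ m)⁻¹ ∈ e.ker := ker_part e t ht h
    have h2 := conj_zpow e t φ c hc n _ hl
    have h3 : g * h * (t ^ (n + m))⁻¹ = (g * (t ^ n)⁻¹) * (t ^ n * (h * (t ^ m)⁻¹) * (t ^ n)⁻¹) := by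
      rw [zpow_add]
      simp only [mul_inv_rev, mul_assoc, inv_mul_cancel_left]
    rw [h3, map_mul, ← h2, zpow_add]
    simp only [mul_assoc, inv_mul_cancel_left]

theorem twist_ker (φ : F →* H) (c : H) (hc : ∀ k ∈ e.ker, Commute c (φ k)) (k : F)
    (hk : k ∈ e.ker) : twist e t ht φ c hc k = φ k := by
  show φ (k * (t ^ (Multiplicative.toAdd (e k)))⁻¹) * (φ t * c) ^ (Multiplicative.toAdd (e k)) = _
  rw [MonoidHom.mem_ker] at hk
  rw [hk]
  simp

theorem twist_t (φ : F →* H) (c : H) (hc : ∀ k ∈ e.ker, Commute c (φ k)) :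
    twist e t ht φ c hc t = φ t * c := by
  show φ (t * (t ^ (Multiplicative.toAdd (e t)))⁻¹) * (φ t * c) ^ (Multiplicative.toAdd (e t)) = _
  rw [ht]
  simp

include ht in
theorem hom_ext (φ ψ : F →* H) (h1 : ∀ k ∈ e.ker, φ k = ψ k) (h2 : φ t = ψ t) : φ = ψ := by
  ext g
  have h3 : g = (g * (t ^ (Multiplicative.toAdd (e g)))⁻¹) * t ^ (Multiplicative.toAdd (e g)) := by
    group
  have h4 : φ (t ^ (Multiplicative.toAdd (e g))) = ψ (t ^ (Multiplicative.toAdd (e g))) := by
    rw [map_zpow, map_zpow, h2]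
  calc φ g = φ (g * (t ^ (Multiplicative.toAdd (e g)))⁻¹) *
        φ (t ^ (Multiplicative.toAdd (e g))) := by rw [← map_mul, ← h3]
    _ = ψ (g * (t ^ (Multiplicative.toAdd (e g)))⁻¹) *
        ψ (t ^ (Multiplicative.toAdd (e g))) := by rw [h1 _ (ker_part e t ht g), h4]
    _ = ψ g := by rw [← map_mul, ← h3]

/-- The restrictions to the kernel of `e` of the homomorphisms mapping `w` to `x`. -/
def Y (w : F) (x : H) : Type _ :=
  {α : e.ker →* H // ∃ φ : F →* H, φ w = x ∧ ∀ k : e.ker, φ k = α k}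

instance (w : F) (x : H) : MulAction (Subgroup.centralizer ({x} : Set H)) (Y e w x) where
  smul c α := ⟨(MulAut.conj (c : H)).toMonoidHom.comp α.1, by
    obtain ⟨φ, h1, h2⟩ := α.2
    refine ⟨(MulAut.conj (c : H)).toMonoidHom.comp φ, ?_, ?_⟩
    · show (c : H) * φ w * (c : H)⁻¹ = x
      rw [h1, Subgroup.mem_centralizer_singleton_iff.1 c.2]
      group
    · intro k
      show (c : H) * φ k * (c : H)⁻¹ = (c : H) * α.1 k * (c : H)⁻¹
      rw [h2]⟩
  one_smul α := by
    apply Subtype.ext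
    ext k
    show (1 : H) * α.1 k * (1 : H)⁻¹ = α.1 k
    simp
  mul_smul c d α := by
    apply Subtype.ext
    ext k
    show (c * d : H) * α.1 k * (c * d : H)⁻¹ = (c : H) * ((d : H) * α.1 k * (d : H)⁻¹) * (c : H)⁻¹
    simp only [mul_inv_rev, mul_assoc]

theorem smul_apply (w : F) (x : H) (c : Subgroup.centralizer ({x} : Set H)) (α : Y e w x)
    (k : e.ker) : (c • α).1 k = (c : H) * α.1 k * (c : H)⁻¹ := rfl

/-- The restriction map. -/
def res (w : F) (x : H) (φ : {φ : F →* H // φ w = x}) : Y e w x :=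
  ⟨φ.1.comp e.ker.subtype, φ.1, φ.2, fun _ => rfl⟩


include ht in
theorem card_fiber [Finite H] (w : F) (hw : w ∈ e.ker) (x : H) (α : Y e w x) :
    Nat.card (MulAction.stabilizer (Subgroup.centralizer ({x} : Set H)) α) =
      Nat.card {φ : {φ : F →* H // φ w = x} // res e w x φ = α} := by
  obtain ⟨φ₀, h1, h2⟩ := α.2
  have hstab : ∀ c ∈ MulAction.stabilizer (Subgroup.centralizer ({x} : Set H)) α,
      ∀ k ∈ e.ker, Commute (c : H) (φ₀ k) := by
    intro c hc k hk
    have h3 : c • α = α := hc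
    have h4 := smul_apply e w x c α ⟨k, hk⟩
    rw [h3, ← h2 ⟨k, hk⟩] at h4
    show (c : H) * φ₀ k = φ₀ k * c
    have h5 : φ₀ k = (c : H) * φ₀ k * (c : H)⁻¹ := h4
    calc (c : H) * φ₀ k = ((c : H) * φ₀ k * (c : H)⁻¹) * c := by group
      _ = φ₀ k * c := by rw [← h5]
  refine Nat.card_congr (Equiv.ofBijective (fun c => ⟨⟨twist e t ht φ₀ (c.1 : H)
    (hstab c.1 c.2), ?_⟩, ?_⟩) ⟨?_, ?_⟩)
  · rw [twist_ker e t ht φ₀ _ _ w hw, h1]
  · apply Subtype.ext
    ext k
    show twist e t ht φ₀ (c.1 : H) (hstab c.1 c.2) k.1 = α.1 k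
    rw [twist_ker e t ht φ₀ _ _ k.1 k.2, h2]
  · intro c d hcd
    have h3 := congrArg (fun z : {φ : {φ : F →* H // φ w = x} // res e w x φ = α} => z.1.1 t) hcd
    simp only [twist_t] at h3
    exact Subtype.ext (Subtype.ext (mul_left_cancel h3))
  · rintro ⟨⟨φ, hφ⟩, hres⟩
    have h3 : ∀ k ∈ e.ker, φ k = φ₀ k := by
      intro k hk
      have h4 := congrArg (fun z : Y e w x => z.1 ⟨k, hk⟩) hres
      exact (show φ k = α.1 ⟨k, hk⟩ from h4).trans (h2 ⟨k, hk⟩).symm
    set c : H := (φ₀ t)⁻¹ * φ t with hc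
    have hcomm : ∀ k ∈ e.ker, Commute c (φ₀ k) := by
      intro k hk
      have h4 : t * k * t⁻¹ ∈ e.ker := (inferInstance : e.ker.Normal).conj_mem k hk t
      have h5 := h3 _ h4
      rw [map_mul, map_mul, map_mul, map_mul, map_inv, map_inv, h3 k hk] at h5
      show c * φ₀ k = φ₀ k * c
      calc c * φ₀ k = (φ₀ t)⁻¹ * (φ t * φ₀ k * (φ t)⁻¹) * φ t := by rw [hc]; group
        _ = (φ₀ t)⁻¹ * (φ₀ t * φ₀ k * (φ₀ t)⁻¹) * φ t := by rw [h5]
        _ = φ₀ k * c := by rw [hc]; group
    have hcx : c ∈ Subgroup.centralizer ({x} : Set H) := by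
      rw [Subgroup.mem_centralizer_singleton_iff, ← h1]
      exact (hcomm w hw).eq
    have hst : (⟨c, hcx⟩ : Subgroup.centralizer ({x} : Set H)) ∈
        MulAction.stabilizer (Subgroup.centralizer ({x} : Set H)) α := by
      rw [MulAction.mem_stabilizer_iff]
      apply Subtype.ext
      ext k
      rw [smul_apply, ← h2 k]
      show c * φ₀ k * c⁻¹ = φ₀ k
      rw [(hcomm k.1 k.2).eq]
      group
    refine ⟨⟨⟨c, hcx⟩, hst⟩, ?_⟩
    apply Subtype.ext
    apply Subtype.ext
    apply hom_ext e t ht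
    · intro k hk
      show twist e t ht φ₀ c hcomm k = φ k
      rw [twist_ker e t ht φ₀ _ _ k hk, h3 k hk]
    · show twist e t ht φ₀ c hcomm t = φ t
      rw [twist_t, hc]
      group

include ht in
theorem solomon_general [Finite H] [Finite (F →* H)] (w : F) (hw : w ∈ e.ker) (x : H) :
    Nat.card (Subgroup.centralizer ({x} : Set H)) ∣ Nat.card {φ : F →* H // φ w = x} := by
  have hfin : Finite (Y e w x) := by
    apply Finite.of_surjective (res e w x)
    intro α
    obtain ⟨φ, h1, h2⟩ := α.2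
    exact ⟨⟨φ, h1⟩, Subtype.ext (by ext k; exact h2 k)⟩
  have := Fintype.ofFinite (Y e w x)
  have h1 : Nat.card {φ : F →* H // φ w = x} =
      ∑ α : Y e w x, Nat.card {φ : {φ : F →* H // φ w = x} // res e w x φ = α} := by
    rw [← Nat.card_sigma]
    exact Nat.card_congr (Equiv.sigmaFiberEquiv (res e w x)).symm
  rw [h1]
  have hinv : ∀ α : Y e w x, Nat.card (MulAction.orbit (Subgroup.centralizer ({x} : Set H)) α) *
      Nat.card {φ : {φ : F →* H // φ w = x} // res e w x φ = α} =
      Nat.card (Subgroup.centralizer ({x} : Set H)) := by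
    intro α
    rw [← card_fiber e t ht w hw x α, Nat.card_coe_set_eq, ← MulAction.index_stabilizer,
      Subgroup.index_mul_card]
  apply Frob.dvd_sum_of_invariant (K := Subgroup.centralizer ({x} : Set H))
  · intro c α
    have h2 := hinv α
    have h3 := hinv (c • α)
    rw [MulAction.orbit_smul, ← h2] at h3
    have h4 : 0 < Nat.card (MulAction.orbit (Subgroup.centralizer ({x} : Set H)) α) := by
      have : Nonempty (MulAction.orbit (Subgroup.centralizer ({x} : Set H)) α) :=
        ⟨⟨α, MulAction.mem_orbit_self α⟩⟩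
      exact Nat.card_pos
    exact Nat.eq_of_mul_eq_mul_left h4 h3
  · intro α
    rw [hinv α]

end general

/-- The exponent sum homomorphisms of a free group. -/
def expSum {r : ℕ} (n : Fin r → ℤ) : FreeGroup (Fin r) →* Multiplicative ℤ :=
  FreeGroup.lift fun i => Multiplicative.ofAdd (n i)

theorem exists_kill {r : ℕ} (hr : 2 ≤ r) (w : FreeGroup (Fin r)) :
    ∃ (e : FreeGroup (Fin r) →* Multiplicative ℤ) (t : FreeGroup (Fin r)),
      e t = Multiplicative.ofAdd 1 ∧ w ∈ e.ker := by
  set i0 : Fin r := ⟨0, by omega⟩ with hi0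
  set i1 : Fin r := ⟨1, by omega⟩ with hi1
  have hne : i0 ≠ i1 := by
    intro h
    exact absurd (congrArg Fin.val h) (by simp [hi0, hi1])
  let n0 : Fin r → ℤ := Pi.single i0 1
  let n1 : Fin r → ℤ := Pi.single i1 1
  set a : ℤ := Multiplicative.toAdd (expSum n0 w) with ha
  set b : ℤ := Multiplicative.toAdd (expSum n1 w) with hb
  by_cases hab : a = 0
  · refine ⟨expSum n0, FreeGroup.of i0, ?_, ?_⟩
    · simp [expSum, n0]
    · rw [MonoidHom.mem_ker]
      exact Multiplicative.toAdd.injective hab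
  · have hg : (Int.gcd a b : ℤ) ≠ 0 := by
      rw [Ne, Int.natCast_eq_zero, Int.gcd_eq_zero_iff]
      exact fun h => hab h.1
    obtain ⟨a', ha'⟩ := Int.gcd_dvd_left (a := a) (b := b)
    obtain ⟨b', hb'⟩ := Int.gcd_dvd_right (a := a) (b := b)
    have hbez : ∃ u v : ℤ, u * b' + v * (-a') = 1 := by
      have h1 := Int.gcd_eq_gcd_ab a b
      refine ⟨Int.gcdB a b, -Int.gcdA a b, ?_⟩
      apply mul_left_cancel₀ hg
      calc (Int.gcd a b : ℤ) * (Int.gcdB a b * b' + -Int.gcdA a b * (-a')) =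
          ((Int.gcd a b : ℤ) * a') * Int.gcdA a b + ((Int.gcd a b : ℤ) * b') * Int.gcdB a b := by
            ring
        _ = a * Int.gcdA a b + b * Int.gcdB a b := by rw [← ha', ← hb']
        _ = (Int.gcd a b : ℤ) * 1 := by rw [← h1, mul_one]
    obtain ⟨u, v, huv⟩ := hbez
    -- e = b' e0 - a' e1
    let e : FreeGroup (Fin r) →* Multiplicative ℤ :=
      expSum (fun i => b' * n0 i + (-a') * n1 i)
    have he : ∀ g, Multiplicative.toAdd (e g) =
        b' * Multiplicative.toAdd (expSum n0 g) + (-a') * Multiplicative.toAdd (expSum n1 g) := by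
      intro g
      induction g using FreeGroup.induction_on with
      | C1 => simp
      | of i =>
        simp [e, expSum]
        ring
      | inv_of i ih => simp [e, expSum]; ring
      | mul x y hx hy =>
        simp only [map_mul, toAdd_mul, hx, hy]
        ring
    refine ⟨e, (FreeGroup.of i0) ^ u * (FreeGroup.of i1) ^ v, ?_, ?_⟩
    · apply Multiplicative.toAdd.injective
      rw [map_mul, map_zpow, map_zpow, toAdd_mul, toAdd_zpow, toAdd_zpow, he, he]
      simp only [expSum, FreeGroup.lift_apply_of, toAdd_ofAdd, n0, n1, Pi.single_eq_same,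
        Pi.single_eq_of_ne hne, Pi.single_eq_of_ne hne.symm, smul_eq_mul]
      linear_combination huv
    · rw [MonoidHom.mem_ker]
      apply Multiplicative.toAdd.injective
      rw [he]
      show b' * a + (-a') * b = 0
      have e1 : b' * a = b' * (Int.gcd a b * a') := by rw [← ha']
      have e2 : a' * b = a' * (Int.gcd a b * b') := by rw [← hb']
      linear_combination e1 - e2

/-- Solomon's theorem: for a word in at least two variables, the order of the centralizer of `x`
divides the number of solutions of `w = x`. -/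
theorem solomon {r : ℕ} (hr : 2 ≤ r) (w : FreeGroup (Fin r)) {H : Type*} [Group H] [Finite H]
    (x : H) :
    Nat.card (Subgroup.centralizer ({x} : Set H)) ∣
      Nat.card {v : Fin r → H // FreeGroup.lift v w = x} := by
  obtain ⟨e, t, ht, hw⟩ := exists_kill hr w
  have : Finite (FreeGroup (Fin r) →* H) := Finite.of_equiv _ FreeGroup.lift
  have h1 := solomon_general e t ht w hw x
  have h2 : Nat.card {v : Fin r → H // FreeGroup.lift v w = x} =
      Nat.card {φ : FreeGroup (Fin r) →* H // φ w = x} := by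
    refine Nat.card_congr (Equiv.subtypeEquiv FreeGroup.lift ?_)
    intro v
    rfl
  rw [h2]
  exact h1

end Pool.Agent.V1134.Solomon
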